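import Mathlib

/-!
# Distributions on few points of the circle whose Fourier coefficients are idempotent-like
-/

set_option autoImplicit false

namespace Pool.Agent.Q188.TP

open Finset

/-- Fourier coefficient -/
noncomputable def wh (Φ : Finset Circle) (w : Circle → ℝ) (m : ℤ) : ℂ :=
  ∑ φ ∈ Φ, ((φ ^ m : Circle) : ℂ) * w φ

lemma re_one_eq {z : Circle} (h : (z : ℂ).re = 1) : z = 1 := by
  apply Circle.ext
  have h1 := Circle.norm_coe z
  have h2 : (z : ℂ).re ^ 2 + (z : ℂ).im ^ 2 = 1 := by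
    have := Complex.sq_norm (z : ℂ)
    rw [h1, Complex.normSq_apply] at this
    nlinarith
  have h3 : (z : ℂ).im = 0 := by
    rw [h] at h2
    nlinarith
  exact Complex.ext (by simpa using h) (by simpa using h3)

theorem alg {Φ : Finset Circle} {w : Circle → ℝ} {H : ℕ} (hΦ : Φ.card ≤ 2 * H + 1)
    (h0 : ∀ φ ∈ Φ, 0 ≤ w φ) (h1 : ∑ φ ∈ Φ, w φ = 1) (h3 : ∀ m : ℤ, wh Φ w m ^ 3 = wh Φ w m)
    (h4 : ∀ m : ℤ, m ≠ 0 → |m| ≤ H → wh Φ w m = 0) :
    ∃ h : ℕ, H < h ∧ h ≤ 2 * H + 1 ∧ ∃ ε : Circle, ((ε : ℂ) = 1 ∨ (ε : ℂ) = -1) ∧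
      (∀ z : Circle, z ^ h = ε → z ∈ Φ ∧ w z = 1 / h) ∧ (∀ φ ∈ Φ, φ ^ h ≠ ε → w φ = 0) := by
  classical
  have hw0 : wh Φ w 0 = 1 := by
    unfold wh
    simp only [zpow_zero, Circle.coe_one, one_mul]
    rw [← Complex.ofReal_sum, h1, Complex.ofReal_one]
  have hval : ∀ m : ℤ, wh Φ w m ≠ 0 → wh Φ w m = 1 ∨ wh Φ w m = -1 := by
    intro m hm
    have h5 := h3 m
    have h6 : wh Φ w m * ((wh Φ w m - 1) * (wh Φ w m + 1)) = 0 := by linear_combination h5
    rcases mul_eq_zero.1 ((mul_eq_zero.1 h6).resolve_left hm) with h7 | h7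
    · exact Or.inl (sub_eq_zero.1 h7)
    · exact Or.inr (eq_neg_of_add_eq_zero_left h7)
  -- a positive weight
  obtain ⟨φ₀, hφ₀, hw⟩ : ∃ φ ∈ Φ, w φ ≠ 0 := by
    by_contra hcon
    push Not at hcon
    rw [Finset.sum_eq_zero hcon] at h1
    exact zero_ne_one h1
  have hcard : 0 < Φ.card := Finset.card_pos.2 ⟨_, hφ₀⟩
  -- some nonzero Fourier coefficient
  have hex : ∃ k : ℕ, 1 ≤ k ∧ wh Φ w k ≠ 0 ∧ k ≤ Φ.card := by
    by_contra hcon
    push Not at hcon
    have hz : ∀ k : ℕ, 1 ≤ k → k ≤ Φ.card → wh Φ w k = 0 := by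
      intro k hk hk2
      by_contra h
      exact absurd hk2 (not_le.2 (hcon k hk h))
    set P : Polynomial ℂ := Polynomial.X * ∏ ψ ∈ Φ.erase φ₀,
      (Polynomial.X - Polynomial.C ((ψ : Circle) : ℂ)) with hP
    have hmon : (∏ ψ ∈ Φ.erase φ₀, (Polynomial.X - Polynomial.C ((ψ : Circle) : ℂ))).Monic :=
      Polynomial.monic_prod_of_monic _ _ fun ψ _ => Polynomial.monic_X_sub_C _
    have hdeg : P.natDegree < Φ.card + 1 := by
      rw [hP, Polynomial.monic_X.natDegree_mul hmon, Polynomial.natDegree_X,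
        Polynomial.natDegree_prod_of_monic _ _ fun ψ _ => Polynomial.monic_X_sub_C _]
      simp only [Polynomial.natDegree_X_sub_C, Finset.sum_const, smul_eq_mul, mul_one]
      rw [Finset.card_erase_of_mem hφ₀]
      omega
    have e1 : ∑ φ ∈ Φ, P.eval ((φ : Circle) : ℂ) * w φ = P.eval ((φ₀ : Circle) : ℂ) * w φ₀ := by
      refine Finset.sum_eq_single_of_mem φ₀ hφ₀ fun φ hφ hne => ?_
      have : P.eval ((φ : Circle) : ℂ) = 0 := by
        rw [hP, Polynomial.eval_mul, Polynomial.eval_prod,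
          Finset.prod_eq_zero (Finset.mem_erase.2 ⟨hne, hφ⟩) (by simp), mul_zero]
      rw [this, zero_mul]
    have e2 : ∑ φ ∈ Φ, P.eval ((φ : Circle) : ℂ) * w φ =
        ∑ k ∈ Finset.range (Φ.card + 1), P.coeff k * wh Φ w k := by
      simp only [Polynomial.eval_eq_sum_range' hdeg, Finset.sum_mul]
      rw [Finset.sum_comm]
      refine Finset.sum_congr rfl fun k _ => ?_
      unfold wh
      rw [Finset.mul_sum]
      refine Finset.sum_congr rfl fun φ _ => ?_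
      rw [Circle.coe_zpow, zpow_natCast]
      ring
    have e3 : ∑ k ∈ Finset.range (Φ.card + 1), P.coeff k * wh Φ w k = 0 := by
      refine Finset.sum_eq_zero fun k hk => ?_
      rcases Nat.eq_zero_or_pos k with hk0 | hk0
      · subst hk0
        rw [hP, Polynomial.coeff_X_mul_zero, zero_mul]
      · rw [hz k hk0 (by rw [Finset.mem_range] at hk; omega), mul_zero]
    have e4 : P.eval ((φ₀ : Circle) : ℂ) ≠ 0 := by
      rw [hP, Polynomial.eval_mul, Polynomial.eval_X, Polynomial.eval_prod]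
      refine mul_ne_zero (Circle.coe_ne_zero _) (Finset.prod_ne_zero_iff.2 fun ψ hψ => ?_)
      rw [Polynomial.eval_sub, Polynomial.eval_X, Polynomial.eval_C, sub_ne_zero]
      exact fun h => (Finset.mem_erase.1 hψ).1 (Circle.ext h.symm)
    rw [e1, e3] at e2
    have := mul_ne_zero e4 (Complex.ofReal_ne_zero.2 hw)
    exact this e2
  have hex' : ∃ k : ℕ, 1 ≤ k ∧ wh Φ w k ≠ 0 := by
    obtain ⟨k, h5, h6, -⟩ := hex
    exact ⟨k, h5, h6⟩
  set h := Nat.find hex' with hh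
  obtain ⟨hh1, hh2⟩ : 1 ≤ h ∧ wh Φ w h ≠ 0 := Nat.find_spec hex'
  have hmin : ∀ k : ℕ, 1 ≤ k → k < h → wh Φ w k = 0 := by
    intro k hk hkh
    by_contra hne
    exact Nat.find_min hex' hkh ⟨hk, hne⟩
  have hhc : h ≤ 2 * H + 1 := by
    obtain ⟨k, h5, h6, h7⟩ := hex
    exact (Nat.find_min' hex' ⟨h5, h6⟩).trans (h7.trans hΦ)
  have hhH : H < h := by
    by_contra hle
    exact hh2 (h4 h (by omega) (by rw [abs_of_nonneg (by positivity)]; omega))
  obtain ⟨ε, hε, hε'⟩ : ∃ ε : Circle, (ε : ℂ) = wh Φ w h ∧ ((ε : ℂ) = 1 ∨ (ε : ℂ) = -1) := by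
    rcases hval h hh2 with h5 | h5
    · exact ⟨1, by rw [h5]; rfl, Or.inl rfl⟩
    · exact ⟨-1, by rw [h5]; simp, Or.inr (by simp)⟩
  -- support
  have hsupp : ∀ φ ∈ Φ, φ ^ h ≠ ε → w φ = 0 := by
    have h5 : ∑ φ ∈ Φ, w φ * (1 - (((φ ^ h * ε⁻¹ : Circle) : ℂ)).re) = 0 := by
      have h6 : ∑ φ ∈ Φ, (((φ ^ h * ε⁻¹ : Circle) : ℂ)) * w φ = 1 := by
        have h7 : ∑ φ ∈ Φ, (((φ ^ h * ε⁻¹ : Circle) : ℂ)) * w φ =
            (∑ φ ∈ Φ, ((φ ^ (h:ℤ) : Circle) : ℂ) * w φ) * ((ε : ℂ))⁻¹ := by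
          rw [Finset.sum_mul]
          refine Finset.sum_congr rfl fun φ _ => ?_
          rw [zpow_natCast]
          push_cast
          ring
        rw [h7]
        have h8 : ∑ φ ∈ Φ, ((φ ^ (h:ℤ) : Circle) : ℂ) * w φ = (ε : ℂ) := hε.symm
        rw [h8, mul_inv_cancel₀ (Circle.coe_ne_zero ε)]
      have h9 := congrArg Complex.re h6
      rw [Complex.re_sum, Complex.one_re] at h9
      simp only [mul_sub, mul_one, Finset.sum_sub_distrib]
      rw [h1, sub_eq_zero, ← h9]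
      refine Finset.sum_congr rfl fun φ _ => ?_
      rw [Complex.re_mul_ofReal, mul_comm]
    have h6 : ∀ φ ∈ Φ, 0 ≤ w φ * (1 - (((φ ^ h * ε⁻¹ : Circle) : ℂ)).re) := by
      intro φ hφ
      refine mul_nonneg (h0 φ hφ) ?_
      have := Complex.re_le_norm ((φ ^ h * ε⁻¹ : Circle) : ℂ)
      rw [Circle.norm_coe] at this
      linarith
    intro φ hφ hne
    have h7 := (Finset.sum_eq_zero_iff_of_nonneg h6).1 h5 φ hφ
    rcases mul_eq_zero.1 h7 with h8 | h8
    · exact h8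
    · exfalso
      apply hne
      have h9 := re_one_eq (z := φ ^ h * ε⁻¹) (by linarith)
      exact mul_inv_eq_one.1 h9
  refine ⟨h, hhH, hhc, ε, hε', ?_, hsupp⟩
  intro z hz
  -- sum of the coefficients
  have h5 : ∑ m ∈ Finset.range h, (((z⁻¹) ^ m : Circle) : ℂ) * wh Φ w m = 1 := by
    rw [Finset.sum_eq_single_of_mem 0 (Finset.mem_range.2 (by omega))]
    · simpa using hw0
    · intro m hm hm0
      rw [hmin m (by omega) (Finset.mem_range.1 hm), mul_zero]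
  have h6 : ∑ m ∈ Finset.range h, (((z⁻¹) ^ m : Circle) : ℂ) * wh Φ w m =
      ∑ φ ∈ Φ, w φ * ∑ m ∈ Finset.range h, ((φ * z⁻¹ : Circle) : ℂ) ^ m := by
    unfold wh
    simp only [Finset.mul_sum]
    rw [Finset.sum_comm]
    refine Finset.sum_congr rfl fun φ _ => Finset.sum_congr rfl fun m _ => ?_
    rw [zpow_natCast]
    push_cast
    ring
  have h7 : ∀ φ ∈ Φ, (w φ : ℂ) * ∑ m ∈ Finset.range h, ((φ * z⁻¹ : Circle) : ℂ) ^ m =
      if φ = z then (w φ : ℂ) * h else 0 := by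
    intro φ hφ
    by_cases hφz : φ = z
    · rw [if_pos hφz, hφz]
      simp
    · rw [if_neg hφz]
      by_cases h8 : φ ^ h = ε
      · have h9 : (φ * z⁻¹) ^ h = 1 := by
          rw [mul_pow, h8, inv_pow, hz, mul_inv_cancel]
        have h10 : ((φ * z⁻¹ : Circle) : ℂ) ≠ 1 := by
          intro h11
          apply hφz
          have : φ * z⁻¹ = 1 := Circle.ext h11
          exact mul_inv_eq_one.1 this
        have h12 : ((φ * z⁻¹ : Circle) : ℂ) ^ h = 1 := by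
          rw [← Circle.coe_pow, h9, Circle.coe_one]
        rw [geom_sum_eq h10, h12, sub_self, zero_div, mul_zero]
      · rw [hsupp φ hφ h8]
        simp
  rw [h5, Finset.sum_congr rfl h7, Finset.sum_ite_eq'] at h6
  by_cases hzΦ : z ∈ Φ
  · rw [if_pos hzΦ] at h6
    refine ⟨hzΦ, ?_⟩
    have h8 : w z * (h:ℝ) = 1 := by exact_mod_cast h6.symm
    have h9 : (h:ℝ) ≠ 0 := by
      have : 0 < h := by omega
      positivity
    field_simp
    linarith
  · rw [if_neg hzΦ] at h6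
    exact absurd h6 one_ne_zero

end Pool.Agent.Q188.TP
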