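import Mathlib
import Pool.Agent.H109R2.SICBase
import Pool.Agent.H109R2.Phases

/-!
# Gram matrices of maximal equiangular tight frames: Hadamard powers and bilinear bounds
-/

set_option autoImplicit false

namespace Pool.Agent.Q188.TP

open Matrix Pool.Agent.H109R2
open scoped ComplexOrder

section general

variable {n : Type*} [Fintype n]

/-- squared norm -/
noncomputable def nsq (a : n → ℂ) : ℝ := ∑ i, ‖a i‖ ^ 2

lemma nsq_nonneg (a : n → ℂ) : 0 ≤ nsq a := Finset.sum_nonneg fun _ _ => by positivity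

lemma star_dot_self (a : n → ℂ) : star a ⬝ᵥ a = (nsq a : ℂ) := by
  unfold nsq dotProduct
  push_cast
  refine Finset.sum_congr rfl fun i _ => ?_
  rw [Pi.star_apply, RCLike.star_def, mul_comm, Complex.mul_conj, Complex.normSq_eq_norm_sq]
  push_cast
  rfl

lemma nsq_smul (c : ℂ) (a : n → ℂ) : nsq (c • a) = ‖c‖ ^ 2 * nsq a := by
  unfold nsq
  rw [Finset.mul_sum]
  refine Finset.sum_congr rfl fun i _ => ?_
  rw [Pi.smul_apply, smul_eq_mul, norm_mul, mul_pow]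

lemma nsq_parallelogram (a b : n → ℂ) : nsq (a + b) + nsq (a - b) = 2 * nsq a + 2 * nsq b := by
  unfold nsq
  rw [← Finset.sum_add_distrib, Finset.mul_sum, Finset.mul_sum, ← Finset.sum_add_distrib]
  refine Finset.sum_congr rfl fun i _ => ?_
  have := parallelogram_law_with_norm ℂ (a i) (b i)
  simp only [Pi.add_apply, Pi.sub_apply]
  nlinarith [this]

variable [DecidableEq n]

lemma quad_re {A : Matrix n n ℂ} {K : ℝ} (h1 : ((K : ℂ) • (1 : Matrix n n ℂ) - A).PosSemidef)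
    (h2 : ((K : ℂ) • (1 : Matrix n n ℂ) + A).PosSemidef) (a b : n → ℂ) :
    (star a ⬝ᵥ (A *ᵥ b)).re ≤ K / 2 * (nsq a + nsq b) := by
  have hA : A.IsHermitian := by
    have h3 := h1.isHermitian
    have h4 := h2.isHermitian
    have h5 := h4.sub h3
    have h6 : (K : ℂ) • (1 : Matrix n n ℂ) + A - ((K : ℂ) • (1 : Matrix n n ℂ) - A) = (2:ℂ) • A := by
      rw [two_smul]; abel
    rw [h6] at h5
    have h7 : ((2:ℂ) • A)ᴴ = (2:ℂ) • A := h5
    rw [conjTranspose_smul] at h7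
    have h8 : star (2:ℂ) = 2 := by simp
    rw [h8] at h7
    exact smul_right_injective _ (by norm_num : (2:ℂ) ≠ 0) h7
  have q1 : ∀ v : n → ℂ, (star v ⬝ᵥ (A *ᵥ v)).re ≤ K * nsq v := by
    intro v
    have := h1.re_dotProduct_nonneg v
    rw [sub_mulVec, smul_mulVec, one_mulVec, dotProduct_sub, dotProduct_smul, star_dot_self] at this
    simp at this
    exact this
  have q2 : ∀ v : n → ℂ, -(star v ⬝ᵥ (A *ᵥ v)).re ≤ K * nsq v := by
    intro v
    have := h2.re_dotProduct_nonneg v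
    rw [add_mulVec, smul_mulVec, one_mulVec, dotProduct_add, dotProduct_smul, star_dot_self] at this
    simp at this
    linarith
  have hc : (star b ⬝ᵥ (A *ᵥ a)).re = (star a ⬝ᵥ (A *ᵥ b)).re := by
    have h3 : star b ⬝ᵥ (A *ᵥ a) = star (star a ⬝ᵥ (A *ᵥ b)) := by
      rw [Matrix.star_dotProduct, star_mulVec, hA.eq, ← dotProduct_mulVec]
    rw [h3]
    simp
  have e1 : (star (a + b) ⬝ᵥ (A *ᵥ (a + b))).re - (star (a - b) ⬝ᵥ (A *ᵥ (a - b))).re
      = 4 * (star a ⬝ᵥ (A *ᵥ b)).re := by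
    rw [star_add, star_sub, mulVec_add, mulVec_sub]
    simp only [add_dotProduct, sub_dotProduct, dotProduct_add, dotProduct_sub, Complex.add_re,
      Complex.sub_re]
    rw [hc]
    ring
  have := q1 (a + b)
  have := q2 (a - b)
  have h5 : K * nsq (a + b) + K * nsq (a - b) = K * (2 * nsq a + 2 * nsq b) := by
    rw [← nsq_parallelogram a b]; ring
  linarith

lemma bil {A : Matrix n n ℂ} {K : ℝ} (hK : 0 ≤ K)
    (h1 : ((K : ℂ) • (1 : Matrix n n ℂ) - A).PosSemidef)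
    (h2 : ((K : ℂ) • (1 : Matrix n n ℂ) + A).PosSemidef) (a b : n → ℂ) :
    ‖star a ⬝ᵥ (A *ᵥ b)‖ ≤ K * √(nsq a) * √(nsq b) := by
  -- rotate
  have h3 : ∀ a b : n → ℂ, ‖star a ⬝ᵥ (A *ᵥ b)‖ ≤ K / 2 * (nsq a + nsq b) := by
    intro a b
    set z := star a ⬝ᵥ (A *ᵥ b) with hz
    by_cases h0 : z = 0
    · rw [h0, norm_zero]
      have := nsq_nonneg a
      have := nsq_nonneg b
      positivity
    · have hn : ‖z‖ ≠ 0 := norm_ne_zero_iff.2 h0
      have h4 := quad_re h1 h2 a ((star z / ‖z‖) • b)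
      rw [mulVec_smul, dotProduct_smul, nsq_smul, ← hz, smul_eq_mul] at h4
      have e1 : star z / (‖z‖:ℂ) * z = (‖z‖ : ℂ) := by
        have : star z * z = ((‖z‖:ℂ)) ^ 2 := by
          rw [mul_comm, RCLike.star_def, Complex.mul_conj, Complex.normSq_eq_norm_sq]
          push_cast; rfl
        field_simp
        rw [this]
      have e2 : ‖star z / (‖z‖:ℂ)‖ = 1 := by
        rw [norm_div, norm_star, Complex.norm_real, norm_norm, div_self hn]
      rw [e1, e2] at h4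
      simpa using h4
  have hsa : 0 ≤ √(nsq a) := Real.sqrt_nonneg _
  have hsb : 0 ≤ √(nsq b) := Real.sqrt_nonneg _
  by_cases ha : nsq a = 0
  · have : a = 0 := by
      funext i
      have h5 := (Finset.sum_eq_zero_iff_of_nonneg (fun i _ => by positivity)).1 ha i (Finset.mem_univ i)
      simpa using h5
    subst this
    simp [nsq]
  by_cases hb : nsq b = 0
  · have : b = 0 := by
      funext i
      have h5 := (Finset.sum_eq_zero_iff_of_nonneg (fun i _ => by positivity)).1 hb i (Finset.mem_univ i)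
      simpa using h5
    subst this
    simp [nsq]
  have ha' : 0 < √(nsq a) := Real.sqrt_pos.2 (lt_of_le_of_ne (nsq_nonneg a) (Ne.symm ha))
  have hb' : 0 < √(nsq b) := Real.sqrt_pos.2 (lt_of_le_of_ne (nsq_nonneg b) (Ne.symm hb))
  have h6 := h3 ((((√(nsq a))⁻¹ : ℝ) : ℂ) • a) ((((√(nsq b))⁻¹ : ℝ) : ℂ) • b)
  rw [nsq_smul, nsq_smul, star_smul, mulVec_smul, dotProduct_smul, smul_dotProduct] at h6
  simp only [smul_eq_mul, norm_mul, norm_star, Complex.norm_real, Real.norm_eq_abs] at h6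
  rw [abs_of_pos (inv_pos.2 ha'), abs_of_pos (inv_pos.2 hb')] at h6
  have e3 : (√(nsq a))⁻¹ ^ 2 * nsq a = 1 := by
    rw [inv_pow, Real.sq_sqrt (nsq_nonneg a)]
    exact inv_mul_cancel₀ ha
  have e4 : (√(nsq b))⁻¹ ^ 2 * nsq b = 1 := by
    rw [inv_pow, Real.sq_sqrt (nsq_nonneg b)]
    exact inv_mul_cancel₀ hb
  rw [e3, e4] at h6
  have h7 : (√(nsq b))⁻¹ * ((√(nsq a))⁻¹ * ‖star a ⬝ᵥ A *ᵥ b‖) ≤ K := by
    calc _ ≤ _ := h6
      _ = K := by ring
  have h8 : ‖star a ⬝ᵥ A *ᵥ b‖ = √(nsq a) * √(nsq b) *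
      ((√(nsq b))⁻¹ * ((√(nsq a))⁻¹ * ‖star a ⬝ᵥ A *ᵥ b‖)) := by
    field_simp
  rw [h8]
  calc √(nsq a) * √(nsq b) * ((√(nsq b))⁻¹ * ((√(nsq a))⁻¹ * ‖star a ⬝ᵥ A *ᵥ b‖))
      ≤ √(nsq a) * √(nsq b) * K := mul_le_mul_of_nonneg_left h7 (by positivity)
    _ = _ := by ring

/-- a Hermitian matrix with `M² = c M`, `c > 0`, is at most `c` -/
lemma le_of_sq {M : Matrix n n ℂ} {c : ℝ} (hc : 0 < c) (hM : M.IsHermitian)
    (h : M * M = (c : ℂ) • M) : ((c : ℂ) • (1 : Matrix n n ℂ) - M).PosSemidef := by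
  set B := (c : ℂ) • (1 : Matrix n n ℂ) - M with hB
  have hBh : Bᴴ = B := by
    rw [hB, conjTranspose_sub, conjTranspose_smul, conjTranspose_one, hM.eq]
    simp
  have h1 : Bᴴ * B = (c : ℂ) • B := by
    rw [hBh, hB, sub_mul, mul_sub, mul_sub, h]
    simp only [smul_mul_assoc, mul_smul_comm, Matrix.one_mul, Matrix.mul_one]
    rw [smul_sub]
    abel
  have h2 := (posSemidef_conjTranspose_mul_self B).smul (show (0:ℝ) ≤ c⁻¹ by positivity)
  rw [h1] at h2
  have h3 : (c⁻¹ : ℝ) • ((c : ℂ) • B) = B := by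
    ext i j
    simp only [Matrix.smul_apply, smul_eq_mul, Complex.real_smul]
    rw [← mul_assoc, ← Complex.ofReal_mul, inv_mul_cancel₀ hc.ne']
    simp
  rwa [h3] at h2

end general

variable {d : ℕ} {x : Fin (d ^ 2) → EuclideanSpace ℂ (Fin d)}

/-- Gram matrix -/
noncomputable abbrev G (x : Fin (d ^ 2) → EuclideanSpace ℂ (Fin d)) :
    Matrix (Fin (d ^ 2)) (Fin (d ^ 2)) ℂ := gram ℂ x

lemma G_sq (hx : SIC.IsMaxETF d x) : G x * G x = ((d : ℝ) : ℂ) • G x := by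
  ext i j
  rw [Matrix.mul_apply, Matrix.smul_apply, smul_eq_mul]
  simpa using Phases.sum_inner hx i j

lemma G2_sq (hx : SIC.IsMaxETF d x) :
    (G x ⊙ G x) * (G x ⊙ G x) = ((2 * d / (d + 1) : ℝ) : ℂ) • (G x ⊙ G x) := by
  ext i j
  rw [Matrix.mul_apply, Matrix.smul_apply, smul_eq_mul]
  have h := Phases.sum_inner2 hx i j
  simp only [hadamard_apply, gram_apply]
  push_cast
  rw [← pow_two, ← h]
  refine Finset.sum_congr rfl fun k _ => ?_
  ring

lemma G_diag (hx : SIC.IsMaxETF d x) : (1 : Matrix (Fin (d ^ 2)) (Fin (d ^ 2)) ℂ) ⊙ G x = 1 := by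
  ext i j
  rw [hadamard_apply]
  by_cases h : i = j
  · subst h
    rw [one_apply_eq, one_mul]
    exact Phases.self_inner hx i
  · rw [one_apply_ne h, zero_mul]

lemma G_psd : (G x).PosSemidef := posSemidef_gram ℂ x

lemma G_herm : (G x).IsHermitian := (G_psd (x := x)).isHermitian

lemma G1_le (hd : 1 ≤ d) (hx : SIC.IsMaxETF d x) :
    (((d : ℝ) : ℂ) • (1 : Matrix (Fin (d ^ 2)) (Fin (d ^ 2)) ℂ) - G x).PosSemidef :=
  le_of_sq (by exact_mod_cast hd) G_herm (G_sq hx)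

lemma G2_le (hd : 1 ≤ d) (hx : SIC.IsMaxETF d x) :
    (((2 * d / (d + 1) : ℝ) : ℂ) • (1 : Matrix (Fin (d ^ 2)) (Fin (d ^ 2)) ℂ) -
      G x ⊙ G x).PosSemidef := by
  have : (0:ℝ) < d := by exact_mod_cast hd
  exact le_of_sq (by positivity) (G_psd.hadamard G_psd).isHermitian (G2_sq hx)

lemma G3_le (hd : 1 ≤ d) (hx : SIC.IsMaxETF d x) :
    (((2 * d / (d + 1) : ℝ) : ℂ) • (1 : Matrix (Fin (d ^ 2)) (Fin (d ^ 2)) ℂ) -
      (G x ⊙ G x) ⊙ G x).PosSemidef := by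
  have h := (G2_le hd hx).hadamard (G_psd (x := x))
  have e : (((2 * d / (d + 1) : ℝ) : ℂ) • (1 : Matrix (Fin (d ^ 2)) (Fin (d ^ 2)) ℂ) -
      G x ⊙ G x) ⊙ G x = ((2 * d / (d + 1) : ℝ) : ℂ) • ((1 : Matrix (Fin (d ^ 2)) (Fin (d ^ 2)) ℂ) ⊙
        G x) - (G x ⊙ G x) ⊙ G x := by
    ext i j
    simp only [hadamard_apply, Matrix.sub_apply, Matrix.smul_apply, smul_eq_mul]
    ring
  rw [e, G_diag hx] at h
  exact h

end Pool.Agent.Q188.TP
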