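import Pool.Agent.Q188.TP.Basic

/-!
# Unimodular matrices of maximal equiangular tight frames
-/

set_option autoImplicit false

namespace Pool.Agent.Q188.TP

open Matrix Pool.Agent.H109R2
open scoped ComplexOrder

variable {d : ℕ} {x : Fin (d ^ 2) → EuclideanSpace ℂ (Fin d)}

/-- a unimodular complex number as an element of the circle -/
noncomputable def toC (z : ℂ) : Circle :=
  if h : ‖z‖ = 1 then (⟨z, mem_sphere_zero_iff_norm.2 h⟩ : Submonoid.unitSphere ℂ) else 1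

lemma toC_coe {z : ℂ} (h : ‖z‖ = 1) : ((toC z : Circle) : ℂ) = z := by
  have : toC z = (⟨z, mem_sphere_zero_iff_norm.2 h⟩ : Submonoid.unitSphere ℂ) := by
    unfold toC
    exact dif_pos h
  exact congrArg (fun w : Circle => (w : ℂ)) this

/-- `√(d+1)` -/
noncomputable def sq (d : ℕ) : ℝ := Real.sqrt ((d : ℝ) + 1)

lemma sq_pos (d : ℕ) : 0 < sq d := Real.sqrt_pos.mpr (by positivity)

lemma sq_sq (d : ℕ) : sq d ^ 2 = (d : ℝ) + 1 := Real.sq_sqrt (by positivity)

lemma one_le_sq (d : ℕ) : 1 ≤ sq d := by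
  rw [sq, Real.one_le_sqrt]
  linarith [(Nat.cast_nonneg d : (0:ℝ) ≤ d)]

/-- the unimodular matrix of a maximal equiangular tight frame -/
noncomputable def uu (x : Fin (d ^ 2) → EuclideanSpace ℂ (Fin d)) (j k : Fin (d ^ 2)) : Circle :=
  if j = k then 1 else toC ((sq d : ℂ) * inner ℂ (x j) (x k))

lemma uu_norm (hx : SIC.IsMaxETF d x) {j k : Fin (d ^ 2)} (h : j ≠ k) :
    ‖(sq d : ℂ) * inner ℂ (x j) (x k)‖ = 1 := by
  rw [norm_mul, hx.2 j k h, Complex.norm_real, Real.norm_eq_abs, abs_of_pos (sq_pos d)]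
  have := sq_pos d
  unfold sq at *
  field_simp

lemma uu_coe (hx : SIC.IsMaxETF d x) {j k : Fin (d ^ 2)} (h : j ≠ k) :
    ((uu x j k : Circle) : ℂ) = (sq d : ℂ) * inner ℂ (x j) (x k) := by
  unfold uu
  rw [if_neg h, toC_coe (uu_norm hx h)]

lemma uu_inv (hx : SIC.IsMaxETF d x) (j k : Fin (d ^ 2)) : uu x k j = (uu x j k)⁻¹ := by
  by_cases h : j = k
  · subst h
    unfold uu
    simp
  · apply Circle.ext
    rw [Circle.coe_inv_eq_conj, uu_coe hx (Ne.symm h), uu_coe hx h, map_mul]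
    congr 1
    · exact (Complex.conj_ofReal _).symm
    · exact (inner_conj_symm _ _).symm

/-- Hadamard power (`e = 1, 2, 3`) of the Gram matrix -/
noncomputable def GP (x : Fin (d ^ 2) → EuclideanSpace ℂ (Fin d)) (e : ℕ) :
    Matrix (Fin (d ^ 2)) (Fin (d ^ 2)) ℂ := Matrix.of fun j k => (inner ℂ (x j) (x k)) ^ e

/-- the bounds -/
noncomputable def KK (d : ℕ) (e : ℕ) : ℝ := if e = 2 then sq d ^ 2 else sq d ^ 3

lemma gp_bil (hd : 1 ≤ d) (hx : SIC.IsMaxETF d x) (e : ℕ) (h1 : 1 ≤ e) (h3 : e ≤ 3)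
    (a b : Fin (d ^ 2) → ℂ) :
    sq d ^ e * ‖star a ⬝ᵥ ((GP x e - 1) *ᵥ b)‖ ≤ KK d e * √(nsq a) * √(nsq b) := by
  have hdr : (1:ℝ) ≤ d := by exact_mod_cast hd
  have hs := sq_pos d
  have hs1 := one_le_sq d
  have hss := sq_sq d
  have ha := Real.sqrt_nonneg (nsq a)
  have hb := Real.sqrt_nonneg (nsq b)
  have psd1 : ∀ c : ℝ, 0 ≤ c → ((c : ℂ) • (1 : Matrix (Fin (d ^ 2)) (Fin (d ^ 2)) ℂ)).PosSemidef := by
    intro c hc
    have := (PosSemidef.one (n := Fin (d ^ 2)) (R := ℂ)).smul (show (0:ℝ) ≤ c from hc)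
    have e1 : (c : ℝ) • (1 : Matrix (Fin (d ^ 2)) (Fin (d ^ 2)) ℂ) = (c : ℂ) • 1 := by
      ext i j; simp
    rwa [e1] at this
  have hc2 : (2 * d / (d + 1) : ℝ) ≤ 2 := by
    rw [div_le_iff₀ (by positivity)]
    linarith
  have key2 : ∀ M : Matrix (Fin (d ^ 2)) (Fin (d ^ 2)) ℂ, M.PosSemidef →
      (((2 * d / (d + 1) : ℝ) : ℂ) • (1 : Matrix (Fin (d ^ 2)) (Fin (d ^ 2)) ℂ) - M).PosSemidef →
      ‖star a ⬝ᵥ ((M - 1) *ᵥ b)‖ ≤ 1 * √(nsq a) * √(nsq b) := by
    intro M hM hM2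
    refine bil zero_le_one ?_ ?_ a b
    · have := hM2.add (psd1 (2 - 2 * d / (d + 1)) (by linarith))
      convert this using 1
      push_cast
      module
    · convert hM using 1
      push_cast
      module
  interval_cases e
  · have e1 : GP x 1 = G x := by
      ext j k
      simp [GP, gram]
    rw [e1]
    have h4 : ‖star a ⬝ᵥ ((G x - 1) *ᵥ b)‖ ≤ (d : ℝ) * √(nsq a) * √(nsq b) := by
      refine bil (by positivity) ?_ ?_ a b
      · have := (G1_le hd hx).add (psd1 1 zero_le_one)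
        convert this using 1
        push_cast
        module
      · have := (G_psd (x := x)).add (psd1 (d - 1) (by linarith))
        convert this using 1
        push_cast
        module
    have h5 : KK d 1 = sq d ^ 3 := by simp [KK]
    rw [h5, pow_one]
    calc sq d * ‖star a ⬝ᵥ ((G x - 1) *ᵥ b)‖ ≤ sq d * ((d : ℝ) * √(nsq a) * √(nsq b)) :=
          mul_le_mul_of_nonneg_left h4 hs.le
      _ = sq d * (d : ℝ) * (√(nsq a) * √(nsq b)) := by ring
      _ ≤ sq d ^ 3 * (√(nsq a) * √(nsq b)) := by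
          refine mul_le_mul_of_nonneg_right ?_ (by positivity)
          have : sq d ^ 3 = sq d * (sq d ^ 2) := by ring
          rw [this, hss]
          nlinarith
      _ = _ := by ring
  · have e1 : GP x 2 = G x ⊙ G x := by
      ext j k
      simp [GP, gram, pow_two]
    rw [e1]
    have h4 := key2 _ ((G_psd (x := x)).hadamard G_psd) (G2_le hd hx)
    have h5 : KK d 2 = sq d ^ 2 := by simp [KK]
    rw [h5]
    calc sq d ^ 2 * ‖star a ⬝ᵥ ((G x ⊙ G x - 1) *ᵥ b)‖ ≤ sq d ^ 2 * (1 * √(nsq a) * √(nsq b)) :=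
          mul_le_mul_of_nonneg_left h4 (by positivity)
      _ = _ := by ring
  · have e1 : GP x 3 = (G x ⊙ G x) ⊙ G x := by
      ext j k
      simp [GP, gram, pow_succ]
    rw [e1]
    have h4 := key2 _ (((G_psd (x := x)).hadamard G_psd).hadamard G_psd) (G3_le hd hx)
    have h5 : KK d 3 = sq d ^ 3 := by simp [KK]
    rw [h5]
    calc sq d ^ 3 * ‖star a ⬝ᵥ (((G x ⊙ G x) ⊙ G x - 1) *ᵥ b)‖
        ≤ sq d ^ 3 * (1 * √(nsq a) * √(nsq b)) := mul_le_mul_of_nonneg_left h4 (by positivity)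
      _ = _ := by ring

/-- **Bilinear bounds for the first three powers of the unimodular matrix.** -/
lemma uu_bil (hd : 1 ≤ d) (hx : SIC.IsMaxETF d x) (e : ℕ) (h1 : 1 ≤ e) (h3 : e ≤ 3)
    (a b : Fin (d ^ 2) → ℂ) :
    ‖∑ j, ∑ k, a j * (if j = k then 0 else ((uu x j k : Circle) : ℂ) ^ e) * b k‖ ≤
      KK d e * √(∑ j, ‖a j‖ ^ 2) * √(∑ k, ‖b k‖ ^ 2) := by
  have h := gp_bil hd hx e h1 h3 (star a) b
  have ha : nsq (star a) = ∑ j, ‖a j‖ ^ 2 := by
    unfold nsq
    refine Finset.sum_congr rfl fun i _ => ?_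
    rw [Pi.star_apply, norm_star]
  rw [ha] at h
  have hb : nsq b = ∑ k, ‖b k‖ ^ 2 := rfl
  rw [hb, star_star] at h
  refine le_trans (le_of_eq ?_) h
  have e2 : ∑ j, ∑ k, a j * (if j = k then 0 else ((uu x j k : Circle) : ℂ) ^ e) * b k =
      ((sq d : ℂ)) ^ e * (a ⬝ᵥ ((GP x e - 1) *ᵥ b)) := by
    unfold dotProduct mulVec dotProduct
    rw [Finset.mul_sum]
    refine Finset.sum_congr rfl fun j _ => ?_
    rw [Finset.mul_sum, Finset.mul_sum]
    refine Finset.sum_congr rfl fun k _ => ?_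
    show a j * (if j = k then 0 else ((uu x j k : Circle) : ℂ) ^ e) * b k =
      (sq d : ℂ) ^ e * (a j * ((GP x e - 1) j k * b k))
    by_cases hjk : j = k
    · subst hjk
      have h0 : (GP x e - 1) j j = 0 := by
        rw [Matrix.sub_apply, one_apply_eq]
        have h00 : GP x e j j = (inner ℂ (x j) (x j) : ℂ) ^ e := rfl
        rw [h00, Phases.self_inner hx]
        simp
      rw [h0]
      simp
    · rw [if_neg hjk, uu_coe hx hjk, Matrix.sub_apply, one_apply_ne hjk, sub_zero, mul_pow]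
      have h00 : GP x e j k = (inner ℂ (x j) (x k) : ℂ) ^ e := rfl
      rw [h00]
      ring
  rw [e2, norm_mul, norm_pow, Complex.norm_real, Real.norm_eq_abs, abs_of_pos (sq_pos d)]

end Pool.Agent.Q188.TP
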