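import Pool.Agent.Q188.TP.Lim

/-!
# Limit distributions: continuous functions
-/

set_option autoImplicit false

namespace Pool.Agent.Q188.TP

open Finset Filter Topology

section seq

variable {I : ℕ → Type} [∀ n, Fintype (I n)] [∀ n, DecidableEq (I n)]
variable {u : ∀ n, I n → I n → Circle} {S : ∀ n, Finset (I n)} {K : ℕ → ℝ} {H : ℕ}

/-- the points of the circle at distance at least `δ` from `Φ` -/
def Far (Φ : Finset Circle) (δ : ℝ) : Set Circle := {z | ∀ φ ∈ Φ, δ ≤ dist z φ}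

/-- the triple products concentrate on `Φ` -/
def Conc (u : ∀ n, I n → I n → Circle) (S : ∀ n, Finset (I n)) (Φ : Finset Circle) : Prop :=
  ∀ δ : ℝ, 0 < δ → Tendsto (fun n => T3 (u n) (S n) ((Far Φ δ).indicator fun _ => (1:ℝ)) /
    ((S n).card : ℝ) ^ 3) atTop (𝓝 0)

lemma bounded_circle {α : Type} [NormedAddCommGroup α] {g : Circle → α} (hg : Continuous g) :
    ∃ M : ℝ, 0 ≤ M ∧ ∀ z, ‖g z‖ ≤ M := by
  obtain ⟨M, hM⟩ := isCompact_univ.exists_bound_of_continuousOn (hg.continuousOn (s := Set.univ))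
  exact ⟨max M 0, le_max_right _ _, fun z => (hM z (Set.mem_univ z)).trans (le_max_left _ _)⟩

lemma Seq.E3_vanish (h : Seq u S K H) {Φ : Finset Circle} (hc : Conc u S Φ) {g : Circle → ℝ}
    (hg : Continuous g) (h0 : ∀ z, 0 ≤ g z) (hΦ : ∀ φ ∈ Φ, g φ = 0) :
    Tendsto (fun n => T3 (u n) (S n) g / ((S n).card : ℝ) ^ 3) atTop (𝓝 0) := by
  obtain ⟨M, hM0, hM⟩ := bounded_circle hg
  rw [Metric.tendsto_nhds]
  intro ε hε
  have hδ : ∃ δ : ℝ, 0 < δ ∧ ∀ φ ∈ Φ, ∀ z, dist z φ < δ → g z < ε / 2 := by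
    have h1 : ∀ φ ∈ Φ, ∀ᶠ δ : ℝ in 𝓝[>] 0, ∀ z, dist z φ < δ → g z < ε / 2 := by
      intro φ hφ
      have h2 := Metric.continuousAt_iff.1 (hg.continuousAt (x := φ)) (ε / 2) (by positivity)
      obtain ⟨δ, hδ, h3⟩ := h2
      filter_upwards [Ioo_mem_nhdsGT hδ] with δ' hδ' z hz
      have h4 := h3 (lt_trans hz hδ'.2)
      rw [hΦ φ hφ, Real.dist_eq, sub_zero, abs_of_nonneg (h0 z)] at h4
      exact h4
    have h2 := (Finset.eventually_all Φ).2 h1
    obtain ⟨δ, hδ⟩ := (h2.and self_mem_nhdsWithin).exists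
    exact ⟨δ, hδ.2, hδ.1⟩
  obtain ⟨δ, hδ0, hδ⟩ := hδ
  have hle : ∀ z, g z ≤ ε / 2 * 1 + M * (Far Φ δ).indicator (fun _ => (1:ℝ)) z := by
    intro z
    by_cases hz : z ∈ Far Φ δ
    · rw [Set.indicator_of_mem hz, mul_one]
      have := (le_abs_self (g z)).trans (hM z)
      linarith
    · rw [Set.indicator_of_notMem hz, mul_zero, add_zero]
      unfold Far at hz
      simp only [Set.mem_ofPred_eq, not_forall, not_le] at hz
      obtain ⟨φ, hφ, h1⟩ := hz
      linarith [hδ φ hφ z h1]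
  have h2 : Tendsto (fun n => ε / 2 * (T3 (u n) (S n) (fun _ => (1:ℝ)) / ((S n).card : ℝ) ^ 3) +
      M * (T3 (u n) (S n) ((Far Φ δ).indicator fun _ => (1:ℝ)) / ((S n).card : ℝ) ^ 3)) atTop
      (𝓝 (ε / 2 * 1 + M * 0)) :=
    (tendsto_const_nhds.mul h.E3_one).add (tendsto_const_nhds.mul (hc δ hδ0))
  have h3 : ε / 2 * 1 + M * 0 < ε := by linarith
  filter_upwards [h2.eventually (gt_mem_nhds h3), h.ev] with n hn hn0
  have h4 : 0 ≤ T3 (u n) (S n) g := by
    unfold T3
    refine Finset.sum_nonneg fun i _ => Finset.sum_nonneg fun j _ => Finset.sum_nonneg fun k _ => ?_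
    split_ifs
    · exact h0 _
    · exact le_rfl
  rw [Real.dist_eq, sub_zero, abs_of_nonneg (by positivity)]
  refine lt_of_le_of_lt ?_ hn
  have h5 := T3_mono (u n) (S n) hle
  rw [T3_add, T3_mul, T3_mul] at h5
  rw [← mul_div_assoc, ← mul_div_assoc, ← add_div]
  exact div_le_div_of_nonneg_right h5 (by positivity)

/-- **Main lemma.** If the triple products concentrate on a set of at most `2 H + 1` points, then
they have a limit distribution, and the three triple products with a common index are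
asymptotically independent. -/
theorem Seq.limit (h : Seq u S K H) {Φ : Finset Circle} (hΦ : Φ.card ≤ 2 * H + 1)
    (hc : Conc u S Φ) : ∃ w : Circle → ℂ,
      (∀ F : Circle → ℂ, Continuous F → Tendsto (fun n => T3 (u n) (S n) F /
        ((S n).card : ℂ) ^ 3) atTop (𝓝 (∑ φ ∈ Φ, F φ * w φ))) ∧
      (∀ F : Circle → ℂ, Continuous F → Tendsto (fun n => T4 (u n) (S n)
        (fun x y z => F x * F y * F z) / ((S n).card : ℂ) ^ 4) atTop
        (𝓝 ((∑ φ ∈ Φ, F φ * w φ) ^ 3))) := by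
  classical
  have h1 : ∀ φ : Circle, ∃ c : ℤ → ℂ, φ ∈ Φ → ∀ ψ ∈ Φ,
      (ψ = φ → La H c ψ = 1) ∧ (ψ ≠ φ → La H c ψ = 0) := by
    intro φ
    by_cases hφ : φ ∈ Φ
    · obtain ⟨c, hc⟩ := interp Φ hΦ φ hφ
      exact ⟨c, fun _ => hc⟩
    · exact ⟨0, fun h => absurd h hφ⟩
  choose c hc1 using h1
  -- the Laurent polynomial which agrees with `F` on `Φ`
  have hF : ∀ F : Circle → ℂ, ∃ b : ℤ → ℂ, b 0 = ∑ φ ∈ Φ, F φ * c φ 0 ∧ ∀ ψ ∈ Φ, La H b ψ = F ψ := by
    intro F
    refine ⟨fun m => ∑ φ ∈ Φ, F φ * c φ m, rfl, fun ψ hψ => ?_⟩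
    have e : La H (fun m => ∑ φ ∈ Φ, F φ * c φ m) ψ = ∑ φ ∈ Φ, F φ * La H (c φ) ψ := by
      unfold La
      simp only [Finset.mul_sum, Finset.sum_mul]
      rw [Finset.sum_comm]
      refine Finset.sum_congr rfl fun φ _ => Finset.sum_congr rfl fun m _ => ?_
      ring
    rw [e, Finset.sum_eq_single_of_mem ψ hψ, (hc1 ψ hψ ψ hψ).1 rfl, mul_one]
    intro φ hφ hne
    rw [(hc1 φ hφ ψ hψ).2 (Ne.symm hne), mul_zero]
  refine ⟨fun φ => c φ 0, ?_, ?_⟩
  · intro F hFc
    obtain ⟨b, hb0, hb⟩ := hF F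
    rw [← hb0]
    have hv := h.E3_vanish hc (g := fun z => ‖F z - La H b z‖)
      ((hFc.sub (La_cont H b)).norm) (fun z => norm_nonneg _)
      (fun φ hφ => by rw [hb φ hφ, sub_self, norm_zero])
    have h2 : Tendsto (fun n => T3 (u n) (S n) (fun z => F z - La H b z) /
        ((S n).card : ℂ) ^ 3) atTop (𝓝 0) := by
      refine squeeze_zero_norm (fun n => ?_) hv
      rw [norm_div, norm_pow, Complex.norm_natCast]
      exact div_le_div_of_nonneg_right (T3_norm _ _ _) (by positivity)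
    have h3 := h2.add (h.E3_La b)
    rw [zero_add] at h3
    refine h3.congr fun n => ?_
    rw [T3_sub, ← add_div]
    congr 1
    ring
  · intro F hFc
    obtain ⟨b, hb0, hb⟩ := hF F
    rw [← hb0]
    obtain ⟨M₁, hM₁, hM₁'⟩ := bounded_circle hFc
    obtain ⟨M₂, hM₂, hM₂'⟩ := bounded_circle (La_cont H b)
    set M := max M₁ M₂ with hMdef
    have hM0 : 0 ≤ M := hM₁.trans (le_max_left _ _)
    set g : Circle → ℝ := fun z => ‖F z - La H b z‖ with hg
    have hv := h.E3_vanish hc (g := g)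
      ((hFc.sub (La_cont H b)).norm) (fun z => norm_nonneg _)
      (fun φ hφ => by rw [hg]; simp only; rw [hb φ hφ, sub_self, norm_zero])
    have hle : ∀ x y z : Circle, ‖F x * F y * F z - La H b x * La H b y * La H b z‖ ≤
        M ^ 2 * (g x + (g y + g z)) := by
      intro x y z
      have e : F x * F y * F z - La H b x * La H b y * La H b z =
          (F x - La H b x) * (F y * F z) + La H b x * ((F y - La H b y) * F z) +
            La H b x * La H b y * (F z - La H b z) := by ring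
      rw [e]
      have b1 : ∀ z, ‖F z‖ ≤ M := fun z => (hM₁' z).trans (le_max_left _ _)
      have b2 : ∀ z, ‖La H b z‖ ≤ M := fun z => (hM₂' z).trans (le_max_right _ _)
      refine (norm_add₃_le).trans ?_
      have t1 : ‖(F x - La H b x) * (F y * F z)‖ ≤ g x * (M * M) := by
        rw [norm_mul, norm_mul]
        exact mul_le_mul_of_nonneg_left (mul_le_mul (b1 y) (b1 z) (norm_nonneg _) hM0) (norm_nonneg _)
      have t2 : ‖La H b x * ((F y - La H b y) * F z)‖ ≤ M * (g y * M) := by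
        rw [norm_mul, norm_mul]
        exact mul_le_mul (b2 x) (mul_le_mul_of_nonneg_left (b1 z) (norm_nonneg _))
          (by positivity) hM0
      have t3 : ‖La H b x * La H b y * (F z - La H b z)‖ ≤ (M * M) * g z := by
        rw [norm_mul, norm_mul]
        exact mul_le_mul_of_nonneg_right (mul_le_mul (b2 x) (b2 y) (norm_nonneg _) hM0)
          (norm_nonneg _)
      nlinarith
    have h2 : Tendsto (fun n => T4 (u n) (S n) (fun x y z => F x * F y * F z -
        La H b x * La H b y * La H b z) / ((S n).card : ℂ) ^ 4) atTop (𝓝 0) := by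
      have hv' := hv.const_mul (M ^ 2 * 3)
      rw [mul_zero] at hv'
      refine squeeze_zero_norm' ?_ hv'
      filter_upwards [h.ev] with n hn
      rw [norm_div, norm_pow, Complex.norm_natCast]
      have q1 := (T4_norm (u n) (S n) (fun x y z => F x * F y * F z -
        La H b x * La H b y * La H b z)).trans (T4_mono (u n) (S n) hle)
      have q2 : T4 (u n) (S n) (fun x y z => M ^ 2 * (g x + (g y + g z))) ≤
          M ^ 2 * (3 * (((S n).card : ℝ) * T3 (u n) (S n) g)) := by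
        rw [T4_mul, T4_add, T4_add]
        refine mul_le_mul_of_nonneg_left ?_ (by positivity)
        have r1 := T4_first (u n) (S n) g (fun z => norm_nonneg _)
        have r2 : T4 (u n) (S n) (fun _ y _ => g y) = T4 (u n) (S n) (fun x _ _ => g x) := by
          rw [T4_cyc (u n) (S n) (fun x _ _ => g x)]
        have r3 : T4 (u n) (S n) (fun _ _ z => g z) = T4 (u n) (S n) (fun x _ _ => g x) := by
          rw [T4_cyc (u n) (S n) (fun _ _ z => g z)]
        rw [r2, r3]
        linarith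
      have q3 := q1.trans q2
      rw [div_le_iff₀ (by positivity)]
      refine q3.trans (le_of_eq ?_)
      field_simp
    have h3 := h2.add (h.E4_La b)
    rw [zero_add] at h3
    refine h3.congr fun n => ?_
    rw [T4_sub, ← add_div]
    congr 1
    ring

/-- the Fourier coefficients of the limit distribution are equal to their cubes -/
theorem Seq.weights (h : Seq u S K H) {Φ : Finset Circle} (hΦ : Φ.card ≤ 2 * H + 1)
    (hc : Conc u S Φ) : ∃ w : Circle → ℝ,
      (∀ F : Circle → ℂ, Continuous F → Tendsto (fun n => T3 (u n) (S n) F /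
        ((S n).card : ℂ) ^ 3) atTop (𝓝 (∑ φ ∈ Φ, F φ * w φ))) ∧
      (∀ φ ∈ Φ, 0 ≤ w φ) ∧ (∑ φ ∈ Φ, w φ = 1) ∧
      (∀ m : ℤ, (∑ φ ∈ Φ, ((φ ^ m : Circle) : ℂ) * w φ) ^ 3 = ∑ φ ∈ Φ, ((φ ^ m : Circle) : ℂ) * w φ) ∧
      (∀ m : ℤ, m ≠ 0 → |m| ≤ H → ∑ φ ∈ Φ, ((φ ^ m : Circle) : ℂ) * w φ = 0) := by
  classical
  obtain ⟨w, h1, h2⟩ := h.limit hΦ hc
  -- positivity
  have hpos : ∀ φ ∈ Φ, 0 ≤ (w φ).re ∧ (w φ).im = 0 := by
    intro φ hφ
    obtain ⟨c, hc1⟩ := interp Φ hΦ φ hφ
    have h3 := h1 (fun z => ((‖La H c z‖ ^ 2 : ℝ) : ℂ))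
      (Complex.continuous_ofReal.comp ((La_cont H c).norm.pow 2))
    have e : ∑ ψ ∈ Φ, ((‖La H c ψ‖ ^ 2 : ℝ) : ℂ) * w ψ = w φ := by
      rw [Finset.sum_eq_single_of_mem φ hφ, (hc1 φ hφ).1 rfl]
      · simp
      · intro ψ hψ hne
        rw [(hc1 ψ hψ).2 hne]
        simp
    rw [e] at h3
    have h4 : ∀ n, T3 (u n) (S n) (fun z => ((‖La H c z‖ ^ 2 : ℝ) : ℂ)) / ((S n).card : ℂ) ^ 3 =
        ((T3 (u n) (S n) (fun z => ‖La H c z‖ ^ 2) / ((S n).card : ℝ) ^ 3 : ℝ) : ℂ) := by
      intro n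
      unfold T3
      push_cast
      congr 1
      refine Finset.sum_congr rfl fun i _ => Finset.sum_congr rfl fun j _ =>
        Finset.sum_congr rfl fun k _ => ?_
      split_ifs <;> simp
    simp only [h4] at h3
    have h5 := (Complex.continuous_re.tendsto _).comp h3
    have h6 := (Complex.continuous_im.tendsto _).comp h3
    constructor
    · refine ge_of_tendsto' h5 fun n => ?_
      simp only [Function.comp, Complex.ofReal_re]
      refine div_nonneg ?_ (by positivity)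
      unfold T3
      refine Finset.sum_nonneg fun i _ => Finset.sum_nonneg fun j _ => Finset.sum_nonneg fun k _ => ?_
      split_ifs
      · positivity
      · exact le_rfl
    · have h7 : (fun n => (Complex.im ∘ fun n => ((T3 (u n) (S n) (fun z => ‖La H c z‖ ^ 2) /
          ((S n).card : ℝ) ^ 3 : ℝ) : ℂ)) n) = fun _ => 0 := by
        funext n
        simp only [Function.comp, Complex.ofReal_im]
      have h8 : Tendsto (fun _ : ℕ => (0:ℝ)) atTop (𝓝 (w φ).im) := by
        rw [← h7]; exact h6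
      exact tendsto_nhds_unique h8 tendsto_const_nhds
  have hw : ∀ φ ∈ Φ, (((w φ).re : ℝ) : ℂ) = w φ := fun φ hφ =>
    Complex.ext (by simp) (by simp [(hpos φ hφ).2])
  have hsum : ∀ F : Circle → ℂ, ∑ φ ∈ Φ, F φ * (((w φ).re : ℝ) : ℂ) = ∑ φ ∈ Φ, F φ * w φ :=
    fun F => Finset.sum_congr rfl fun φ hφ => by rw [hw φ hφ]
  refine ⟨fun φ => (w φ).re, ?_, fun φ hφ => (hpos φ hφ).1, ?_, ?_, ?_⟩
  · intro F hF
    rw [hsum]
    exact h1 F hF
  · have h3 := h1 (fun _ => 1) continuous_const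
    have h4 := tendsto_nhds_unique h3 h.E3_oneC
    have h5 : ((∑ φ ∈ Φ, (w φ).re : ℝ) : ℂ) = 1 := by
      rw [← h4]
      push_cast
      refine Finset.sum_congr rfl fun φ hφ => ?_
      rw [hw φ hφ, one_mul]
    exact_mod_cast h5
  · intro m
    rw [hsum (fun φ => ((φ ^ m : Circle) : ℂ))]
    have h3 := h2 (fun z => ((z ^ m : Circle) : ℂ)) (cont_pow m)
    have h4 := h.E4_prod (h1 (fun z => ((z ^ m : Circle) : ℂ)) (cont_pow m))
    refine tendsto_nhds_unique h3 (h4.congr fun n => ?_)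
    congr 2
    funext x y z
    rw [mul_zpow, mul_zpow]
    push_cast
    ring
  · intro m hm hm'
    rw [hsum (fun φ => ((φ ^ m : Circle) : ℂ))]
    exact tendsto_nhds_unique (h1 (fun z => ((z ^ m : Circle) : ℂ)) (cont_pow m)) (h.E3_pow m hm hm')

end seq

end Pool.Agent.Q188.TP
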