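import Pool.Agent.Q188.TP.Bil
import Pool.Agent.Q188.TP.Cont
import Pool.Agent.Q188.TP.Alg

/-!
# Triple products of maximal equiangular tight frames
-/

set_option autoImplicit false

namespace Pool.Agent.Q188.TP

open Pool.Agent.H109R2 Filter Topology

variable {d : ℕ} {x : Fin (d ^ 2) → EuclideanSpace ℂ (Fin d)}

/-- the normalised triple product -/
noncomputable def ph (x : Fin (d ^ 2) → EuclideanSpace ℂ (Fin d)) (i j k : Fin (d ^ 2)) : ℂ :=
  ((Real.sqrt ((d : ℝ) + 1) : ℝ) : ℂ) ^ 3 *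
    (inner ℂ (x i) (x j) * inner ℂ (x j) (x k) * inner ℂ (x k) (x i))

lemma ph_eq (hx : SIC.IsMaxETF d x) {i j k : Fin (d ^ 2)} (h : D3 i j k) :
    ((tt (uu x) i j k : Circle) : ℂ) = ph x i j k := by
  obtain ⟨h1, h2, h3⟩ := h
  unfold tt
  rw [Circle.coe_mul, Circle.coe_mul, uu_coe hx h1, uu_coe hx h2, uu_coe hx h3]
  unfold ph sq
  ring

/-- mean value over the triples of distinct elements of `S` -/
noncomputable def mean (x : Fin (d ^ 2) → EuclideanSpace ℂ (Fin d)) (S : Finset (Fin (d ^ 2)))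
    (F : ℂ → ℝ) : ℝ :=
  (∑ i ∈ S, ∑ j ∈ S, ∑ k ∈ S, if i ≠ j ∧ j ≠ k ∧ k ≠ i then F (ph x i j k) else 0) /
    (S.card : ℝ) ^ 3

/-- the `q`-th power of the unimodular matrix -/
noncomputable def uq (x : Fin (d ^ 2) → EuclideanSpace ℂ (Fin d)) (q : ℕ) (j k : Fin (d ^ 2)) :
    Circle := uu x j k ^ q

lemma tt_uq (q : ℕ) (i j k : Fin (d ^ 2)) : tt (uq x q) i j k = tt (uu x) i j k ^ q := by
  unfold tt uq
  rw [mul_pow, mul_pow]

lemma mean_eq (hx : SIC.IsMaxETF d x) (S : Finset (Fin (d ^ 2))) (q : ℕ) (G : ℂ → ℝ) :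
    mean x S (fun z => G (z ^ q)) = T3 (uq x q) S (fun z : Circle => G (z : ℂ)) /
      (S.card : ℝ) ^ 3 := by
  unfold mean T3
  congr 1
  refine Finset.sum_congr rfl fun i _ => Finset.sum_congr rfl fun j _ =>
    Finset.sum_congr rfl fun k _ => ?_
  by_cases h : D3 i j k
  · have h' : i ≠ j ∧ j ≠ k ∧ k ≠ i := h
    rw [if_pos h, if_pos h']
    show G ((ph x i j k) ^ q) = G ((tt (uq x q) i j k : Circle) : ℂ)
    rw [tt_uq, Circle.coe_pow, ph_eq hx h]
  · have h' : ¬ (i ≠ j ∧ j ≠ k ∧ k ≠ i) := h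
    rw [if_neg h, if_neg h']

lemma sys_uq (hx : SIC.IsMaxETF d x) {q H p : ℕ}
    (hq : (q = 1 ∧ H = 3 ∧ p = 3) ∨ (q = 2 ∧ H = 1 ∧ p = 2)) :
    Sys (uq x q) H (sq d ^ p) := by
  refine ⟨fun j k => ?_, fun e h1 h2 a b => ?_⟩
  · unfold uq
    rw [uu_inv hx j k, inv_pow]
  · by_cases hd : 1 ≤ d
    · have h3 := uu_bil hd hx (q * e) (by rcases hq with ⟨rfl, rfl, rfl⟩ | ⟨rfl, rfl, rfl⟩ <;> omega)
        (by rcases hq with ⟨rfl, rfl, rfl⟩ | ⟨rfl, rfl, rfl⟩ <;> omega) a b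
      have e1 : ∀ j k, (if j = k then (0:ℂ) else ((uq x q j k : Circle) : ℂ) ^ e) =
          if j = k then (0:ℂ) else ((uu x j k : Circle) : ℂ) ^ (q * e) := by
        intro j k
        unfold uq
        rw [Circle.coe_pow, pow_mul]
      simp only [e1]
      refine h3.trans ?_
      have h4 : KK d (q * e) ≤ sq d ^ p := by
        have hs := one_le_sq d
        unfold KK
        rcases hq with ⟨rfl, rfl, rfl⟩ | ⟨rfl, rfl, rfl⟩
        · split_ifs
          · exact pow_le_pow_right₀ hs (by norm_num)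
          · exact le_rfl
        · have : e = 1 := by omega
          subst this
          simp
      gcongr
    · have hd0 : d = 0 := by omega
      subst hd0
      have : IsEmpty (Fin (0 ^ 2)) := by simpa using (inferInstance : IsEmpty (Fin 0))
      simp

/-- **Structure theorem.** -/
theorem struct {q H p : ℕ} (hq : (q = 1 ∧ H = 3 ∧ p = 3) ∨ (q = 2 ∧ H = 1 ∧ p = 2))
    (Φ : Finset ℂ) (hΦ1 : ∀ φ ∈ Φ, ‖φ‖ = 1) (hΦ : Φ.card ≤ 2 * H + 1)
    (d : ℕ → ℕ) (x : ∀ n, Fin (d n ^ 2) → EuclideanSpace ℂ (Fin (d n)))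
    (S : ∀ n, Finset (Fin (d n ^ 2))) (hx : ∀ n, SIC.IsMaxETF (d n) (x n))
    (hS : Tendsto (fun n => ((S n).card : ℝ) / Real.sqrt ((d n : ℝ) + 1) ^ p) atTop atTop)
    (hc : ∀ δ : ℝ, 0 < δ → Tendsto (fun n => mean (x n) (S n) fun z =>
      {w : ℂ | ∀ φ ∈ Φ, δ ≤ ‖w - φ‖}.indicator 1 (z ^ q)) atTop (𝓝 0)) :
    ∃ h : ℕ, H < h ∧ h ≤ 2 * H + 1 ∧ ∃ ε : ℂ, (ε = 1 ∨ ε = -1) ∧ (∀ z : ℂ, z ^ h = ε → z ∈ Φ) ∧
      ∀ F : ℂ → ℝ, Continuous F → Tendsto (fun n => mean (x n) (S n) fun z => F (z ^ q)) atTop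
        (𝓝 ((∑ z ∈ (Polynomial.nthRoots h ε).toFinset, F z) / h)) := by
  classical
  have hseq : Seq (fun n => uq (x n) q) S (fun n => sq (d n) ^ p) H := by
    refine ⟨fun n => sys_uq (hx n) hq, fun n => by have := sq_pos (d n); positivity, ?_, ?_⟩
    · refine tendsto_atTop_mono (fun n => ?_) hS
      have h1 : 1 ≤ sq (d n) ^ p := one_le_pow₀ (one_le_sq _)
      exact div_le_self (by positivity) h1
    · have h2 := tendsto_inv_atTop_zero.comp hS
      refine h2.congr fun n => ?_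
      simp only [Function.comp, inv_div]
      rfl
  set Φc : Finset Circle := Φ.image toC with hΦc
  have hcard : Φc.card ≤ 2 * H + 1 := Finset.card_image_le.trans hΦ
  have hmem : ∀ z : Circle, z ∈ Φc ↔ (z : ℂ) ∈ Φ := by
    intro z
    rw [hΦc, Finset.mem_image]
    constructor
    · rintro ⟨w, hw, rfl⟩
      rwa [toC_coe (hΦ1 w hw)]
    · intro hz
      exact ⟨z, hz, Circle.ext (toC_coe (Circle.norm_coe z))⟩
  have hconc : Conc (fun n => uq (x n) q) S Φc := by
    intro δ hδ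
    refine (hc δ hδ).congr fun n => ?_
    rw [mean_eq (hx n) (S n) q ({w : ℂ | ∀ φ ∈ Φ, δ ≤ ‖w - φ‖}.indicator 1)]
    congr 2
    funext z
    by_cases hz : z ∈ Far Φc δ
    · rw [Set.indicator_of_mem hz, Set.indicator_of_mem]
      · rfl
      · intro φ hφ
        have h1 := hz (toC φ) ((hmem _).2 (by rwa [toC_coe (hΦ1 φ hφ)]))
        have h2 : dist z (toC φ) = ‖(z : ℂ) - φ‖ := by
          have : dist z (toC φ) = dist (z : ℂ) ((toC φ : Circle) : ℂ) := rfl
          rw [this, toC_coe (hΦ1 φ hφ), dist_eq_norm]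
        rwa [h2] at h1
    · rw [Set.indicator_of_notMem hz, Set.indicator_of_notMem]
      intro hz'
      apply hz
      intro φ hφ
      have h1 := hz' (φ : ℂ) ((hmem φ).1 hφ)
      have : dist z φ = dist (z : ℂ) (φ : ℂ) := rfl
      rw [this, dist_eq_norm]
      exact h1
  obtain ⟨w, h1, h2, h3, h4, h5⟩ := hseq.weights hcard hconc
  obtain ⟨h, hh1, hh2, ε, hε, h6, h7⟩ := alg hcard h2 h3 h4 h5
  refine ⟨h, hh1, hh2, (ε : ℂ), hε, ?_, ?_⟩
  · intro z hz
    have hz1 : ‖z‖ = 1 := by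
      have h8 : ‖z‖ ^ h = 1 := by rw [← norm_pow, hz, Circle.norm_coe]
      exact (pow_eq_one_iff_of_nonneg (norm_nonneg z) (by omega)).1 h8
    have h8 := (h6 (toC z) (Circle.ext (by rw [Circle.coe_pow, toC_coe hz1, hz]))).1
    rw [hmem, toC_coe hz1] at h8
    exact h8
  · intro F hF
    have h8 := h1 (fun z => ((F (z : ℂ) : ℝ) : ℂ))
      (Complex.continuous_ofReal.comp (hF.comp continuous_subtype_val))
    have e1 : ∀ n, T3 (uq (x n) q) (S n) (fun z => ((F (z : ℂ) : ℝ) : ℂ)) / ((S n).card : ℂ) ^ 3 =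
        ((mean (x n) (S n) (fun z => F (z ^ q)) : ℝ) : ℂ) := by
      intro n
      rw [mean_eq (hx n) (S n) q F]
      unfold T3
      push_cast
      congr 1
      refine Finset.sum_congr rfl fun i _ => Finset.sum_congr rfl fun j _ =>
        Finset.sum_congr rfl fun k _ => ?_
      split_ifs <;> simp
    simp only [e1] at h8
    have e2 : ∑ φ ∈ Φc, ((F (φ : ℂ) : ℝ) : ℂ) * w φ =
        (((∑ z ∈ (Polynomial.nthRoots h (ε:ℂ)).toFinset, F z) / h : ℝ) : ℂ) := by
      have e3 : ∑ φ ∈ Φc, F (φ : ℂ) * w φ =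
          (∑ z ∈ (Polynomial.nthRoots h (ε:ℂ)).toFinset, F z) / h := by
        rw [Finset.sum_div]
        have e4 : ∑ φ ∈ Φc, F (φ : ℂ) * w φ = ∑ φ ∈ Φc.filter (fun φ => φ ^ h = ε), F (φ : ℂ) / h := by
          rw [Finset.sum_filter]
          refine Finset.sum_congr rfl fun φ hφ => ?_
          split_ifs with h9
          · rw [(h6 φ h9).2]; ring
          · rw [h7 φ hφ h9, mul_zero]
        rw [e4]
        have hroot : ∀ z : ℂ, z ∈ (Polynomial.nthRoots h (ε:ℂ)).toFinset ↔ z ^ h = ε := by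
          intro z
          rw [Multiset.mem_toFinset, Polynomial.mem_nthRoots (by omega)]
        have hn1 : ∀ z : ℂ, z ^ h = ε → ‖z‖ = 1 := by
          intro z hz
          have h8 : ‖z‖ ^ h = 1 := by rw [← norm_pow, hz, Circle.norm_coe]
          exact (pow_eq_one_iff_of_nonneg (norm_nonneg z) (by omega)).1 h8
        refine Finset.sum_nbij' (fun φ => (φ : ℂ)) toC ?_ ?_ ?_ ?_ ?_
        · intro φ hφ
          rw [hroot, ← Circle.coe_pow, (Finset.mem_filter.1 hφ).2]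
        · intro z hz
          rw [hroot] at hz
          have h10 : toC z ^ h = ε := Circle.ext (by rw [Circle.coe_pow, toC_coe (hn1 z hz), hz])
          exact Finset.mem_filter.2 ⟨(h6 _ h10).1, h10⟩
        · intro φ _
          exact Circle.ext (toC_coe (Circle.norm_coe φ))
        · intro z hz
          rw [hroot] at hz
          exact toC_coe (hn1 z hz)
        · intro φ _
          rfl
      rw [← e3]
      push_cast
      rfl
    rw [e2] at h8
    have h9 := (Complex.continuous_re.tendsto _).comp h8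
    simpa [Function.comp_def] using h9

end Pool.Agent.Q188.TP
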