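import Pool.Agent.Q188.TP.Sums

/-!
# Limit distributions of the triple products of unimodular systems
-/

set_option autoImplicit false

namespace Pool.Agent.Q188.TP

open Finset Filter Topology

/-- Laurent polynomial -/
noncomputable def La (H : ℕ) (c : ℤ → ℂ) (z : Circle) : ℂ :=
  ∑ m ∈ Finset.Icc (-(H:ℤ)) H, c m * ((z ^ m : Circle) : ℂ)

lemma cont_pow (m : ℤ) : Continuous fun z : Circle => ((z ^ m : Circle) : ℂ) :=
  continuous_subtype_val.comp (continuous_zpow m)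

lemma La_cont (H : ℕ) (c : ℤ → ℂ) : Continuous (La H c) :=
  continuous_finsetSum _ fun m _ => continuous_const.mul (cont_pow m)

lemma interp {H : ℕ} (Φ : Finset Circle) (hΦ : Φ.card ≤ 2 * H + 1) (φ₀ : Circle) (h0 : φ₀ ∈ Φ) :
    ∃ c : ℤ → ℂ, ∀ ψ ∈ Φ, (ψ = φ₀ → La H c ψ = 1) ∧ (ψ ≠ φ₀ → La H c ψ = 0) := by
  classical
  set P : Polynomial ℂ := ∏ ψ ∈ Φ.erase φ₀, (Polynomial.X - Polynomial.C ((ψ : Circle) : ℂ)) with hP
  have hdeg : P.natDegree < 2 * H + 1 := by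
    rw [hP, Polynomial.natDegree_prod_of_monic _ _ fun ψ _ => Polynomial.monic_X_sub_C _]
    simp only [Polynomial.natDegree_X_sub_C, Finset.sum_const, smul_eq_mul, mul_one]
    rw [Finset.card_erase_of_mem h0]
    have : 0 < Φ.card := Finset.card_pos.2 ⟨_, h0⟩
    omega
  have hev0 : P.eval ((φ₀ : Circle) : ℂ) ≠ 0 := by
    rw [hP, Polynomial.eval_prod, Finset.prod_ne_zero_iff]
    intro ψ hψ
    rw [Polynomial.eval_sub, Polynomial.eval_X, Polynomial.eval_C, sub_ne_zero]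
    exact fun h => (Finset.mem_erase.1 hψ).1 (Circle.ext h.symm)
  have hev1 : ∀ ψ ∈ Φ, ψ ≠ φ₀ → P.eval ((ψ : Circle) : ℂ) = 0 := by
    intro ψ hψ hne
    rw [hP, Polynomial.eval_prod]
    refine Finset.prod_eq_zero (Finset.mem_erase.2 ⟨hne, hψ⟩) ?_
    simp
  set a : ℂ := ((φ₀ : Circle) : ℂ) ^ H / P.eval ((φ₀ : Circle) : ℂ) with ha
  refine ⟨fun m => a * P.coeff (m + H).toNat, fun ψ hψ => ?_⟩
  have key : La H (fun m => a * P.coeff (m + H).toNat) ψ =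
      a * (((ψ : Circle) : ℂ) ^ H)⁻¹ * P.eval ((ψ : Circle) : ℂ) := by
    rw [Polynomial.eval_eq_sum_range' hdeg, Finset.mul_sum]
    unfold La
    refine Finset.sum_nbij' (fun m => (m + H).toNat) (fun k => (k : ℤ) - H) ?_ ?_ ?_ ?_ ?_
    · intro m hm
      rw [Finset.mem_Icc] at hm
      rw [Finset.mem_range]
      omega
    · intro k hk
      rw [Finset.mem_range] at hk
      rw [Finset.mem_Icc]
      omega
    · intro m hm
      rw [Finset.mem_Icc] at hm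
      omega
    · intro k hk
      simp
    · intro m hm
      rw [Finset.mem_Icc] at hm
      have h1 : ((ψ : Circle) : ℂ) ^ (m + H).toNat = ((ψ : Circle) : ℂ) ^ m * ((ψ : Circle) : ℂ) ^ H := by
        have h2 : (((m + H).toNat : ℕ) : ℤ) = m + H := Int.toNat_of_nonneg (by omega)
        rw [← zpow_natCast, h2, zpow_add₀ (Circle.coe_ne_zero ψ), zpow_natCast]
      rw [h1]
      have h3 := Circle.coe_ne_zero ψ
      rw [Circle.coe_zpow]
      field_simp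
  rw [key]
  constructor
  · intro h
    subst h
    rw [ha]
    have := Circle.coe_ne_zero ψ
    field_simp
  · intro h
    rw [hev1 ψ hψ h, mul_zero]

section seq

variable {I : ℕ → Type} [∀ n, Fintype (I n)] [∀ n, DecidableEq (I n)]

/-- a sequence of unimodular systems with sets of indices -/
structure Seq (u : ∀ n, I n → I n → Circle) (S : ∀ n, Finset (I n)) (K : ℕ → ℝ) (H : ℕ) :
    Prop where
  sys : ∀ n, Sys (u n) H (K n)
  pos : ∀ n, 0 ≤ K n
  card : Tendsto (fun n => ((S n).card : ℝ)) atTop atTop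
  lim : Tendsto (fun n => K n / ((S n).card : ℝ)) atTop (𝓝 0)

variable {u : ∀ n, I n → I n → Circle} {S : ∀ n, Finset (I n)} {K : ℕ → ℝ} {H : ℕ}

lemma Seq.ev (h : Seq u S K H) : ∀ᶠ n in atTop, (0:ℝ) < ((S n).card : ℝ) :=
  h.card.eventually_gt_atTop 0

lemma Seq.inv (h : Seq u S K H) : Tendsto (fun n => ((S n).card : ℝ)⁻¹) atTop (𝓝 0) :=
  tendsto_inv_atTop_zero.comp h.card

lemma Seq.E3_pow (h : Seq u S K H) (m : ℤ) (hm : m ≠ 0) (hm' : |m| ≤ H) :
    Tendsto (fun n => T3 (u n) (S n) (fun z => ((z ^ m : Circle) : ℂ)) / (((S n).card : ℂ)) ^ 3)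
      atTop (𝓝 0) := by
  refine squeeze_zero_norm' ?_ h.lim
  filter_upwards [h.ev] with n hn
  rw [norm_div, norm_pow, Complex.norm_natCast]
  have := (h.sys n).bound3 (h.pos n) m hm hm' (S n)
  rw [div_le_div_iff₀ (by positivity) hn]
  calc _ ≤ (K n * ((S n).card : ℝ) ^ 2) * ((S n).card : ℝ) :=
        mul_le_mul_of_nonneg_right this hn.le
    _ = _ := by ring

lemma Seq.E3_one (h : Seq u S K H) :
    Tendsto (fun n => T3 (u n) (S n) (fun _ => (1:ℝ)) / ((S n).card : ℝ) ^ 3) atTop (𝓝 1) := by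
  have h1 : Tendsto (fun n => (1 - ((S n).card : ℝ)⁻¹) * (1 - 2 * ((S n).card : ℝ)⁻¹)) atTop
      (𝓝 ((1 - 0) * (1 - 2 * 0))) :=
    (tendsto_const_nhds.sub h.inv).mul (tendsto_const_nhds.sub (tendsto_const_nhds.mul h.inv))
  have h2 : ((1:ℝ) - 0) * (1 - 2 * 0) = 1 := by norm_num
  rw [h2] at h1
  refine h1.congr' ?_
  filter_upwards [h.ev] with n hn
  rw [T3_one]
  field_simp

lemma Seq.E3_oneC (h : Seq u S K H) :
    Tendsto (fun n => T3 (u n) (S n) (fun _ => (1:ℂ)) / ((S n).card : ℂ) ^ 3) atTop (𝓝 1) := by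
  have h1 := (Complex.continuous_ofReal.tendsto (1:ℝ)).comp h.E3_one
  rw [Complex.ofReal_one] at h1
  refine h1.congr fun n => ?_
  simp only [Function.comp]
  unfold T3
  push_cast
  congr 1
  refine Finset.sum_congr rfl fun i _ => Finset.sum_congr rfl fun j _ =>
    Finset.sum_congr rfl fun k _ => ?_
  split_ifs <;> simp

lemma Seq.E3_La (h : Seq u S K H) (c : ℤ → ℂ) :
    Tendsto (fun n => T3 (u n) (S n) (La H c) / ((S n).card : ℂ) ^ 3) atTop (𝓝 (c 0)) := by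
  have h1 : ∀ n, T3 (u n) (S n) (La H c) / ((S n).card : ℂ) ^ 3 =
      ∑ m ∈ Finset.Icc (-(H:ℤ)) H, c m *
        (T3 (u n) (S n) (fun z => ((z ^ m : Circle) : ℂ)) / ((S n).card : ℂ) ^ 3) := by
    intro n
    have : La H c = fun z => ∑ m ∈ Finset.Icc (-(H:ℤ)) H, (fun m z => c m * ((z ^ m : Circle) : ℂ)) m z :=
      rfl
    rw [this, T3_sum, Finset.sum_div]
    refine Finset.sum_congr rfl fun m _ => ?_
    rw [T3_mul, mul_div_assoc]
  simp only [h1]
  have h2 : c 0 = ∑ m ∈ Finset.Icc (-(H:ℤ)) H, c m * (if m = 0 then 1 else 0) := by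
    simp
  rw [h2]
  refine tendsto_finsetSum _ fun m hm => tendsto_const_nhds.mul ?_
  rw [Finset.mem_Icc] at hm
  by_cases h0 : m = 0
  · subst h0
    rw [if_pos rfl]
    simpa using h.E3_oneC
  · rw [if_neg h0]
    exact h.E3_pow m h0 (abs_le.2 hm)

lemma Seq.E4_pow (h : Seq u S K H) (m₁ m₂ m₃ : ℤ) (hm : ¬ (m₁ = 0 ∧ m₂ = 0 ∧ m₃ = 0))
    (h1 : |m₁| ≤ H) (h2 : |m₂| ≤ H) (h3 : |m₃| ≤ H) :
    Tendsto (fun n => T4 (u n) (S n) (fun a b c => ((a ^ m₁ : Circle) : ℂ) *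
      ((b ^ m₂ : Circle) : ℂ) * ((c ^ m₃ : Circle) : ℂ)) / (((S n).card : ℂ)) ^ 4)
      atTop (𝓝 0) := by
  refine squeeze_zero_norm' ?_ h.lim
  filter_upwards [h.ev] with n hn
  rw [norm_div, norm_pow, Complex.norm_natCast]
  have := (h.sys n).bound4 (h.pos n) m₁ m₂ m₃ hm h1 h2 h3 (S n)
  rw [div_le_div_iff₀ (by positivity) hn]
  calc _ ≤ (K n * ((S n).card : ℝ) ^ 3) * ((S n).card : ℝ) :=
        mul_le_mul_of_nonneg_right this hn.le
    _ = _ := by ring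

/-- functions of the product of the three triple products -/
lemma Seq.E4_prod (h : Seq u S K H) {F : Circle → ℂ} {L : ℂ}
    (hF : Tendsto (fun n => T3 (u n) (S n) F / ((S n).card : ℂ) ^ 3) atTop (𝓝 L)) :
    Tendsto (fun n => T4 (u n) (S n) (fun a b c => F (a * b * c)) / ((S n).card : ℂ) ^ 4) atTop
      (𝓝 L) := by
  have h1 : Tendsto (fun n => (((1 - 3 * ((S n).card : ℝ)⁻¹ : ℝ) : ℂ))) atTop (𝓝 ((1 - 3 * 0 : ℝ) : ℂ)) :=
    (Complex.continuous_ofReal.tendsto _).comp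
      (tendsto_const_nhds.sub (tendsto_const_nhds.mul h.inv))
  have h2 := h1.mul hF
  have h3 : ((1 - 3 * 0 : ℝ) : ℂ) * L = L := by simp
  rw [h3] at h2
  refine h2.congr' ?_
  filter_upwards [h.ev] with n hn
  rw [T4_prod (h.sys n).inv]
  have : ((S n).card : ℂ) ≠ 0 := by
    have := hn.ne'
    exact_mod_cast this
  push_cast
  field_simp

lemma Seq.E4_La (h : Seq u S K H) (c : ℤ → ℂ) :
    Tendsto (fun n => T4 (u n) (S n) (fun x y z => La H c x * La H c y * La H c z) /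
      ((S n).card : ℂ) ^ 4) atTop (𝓝 ((c 0) ^ 3)) := by
  set A := Finset.Icc (-(H:ℤ)) H with hA
  have h1 : ∀ n, T4 (u n) (S n) (fun x y z => La H c x * La H c y * La H c z) /
      ((S n).card : ℂ) ^ 4 = ∑ m₁ ∈ A, ∑ m₂ ∈ A, ∑ m₃ ∈ A, (c m₁ * c m₂ * c m₃) *
        (T4 (u n) (S n) (fun x y z => ((x ^ m₁ : Circle) : ℂ) *
          ((y ^ m₂ : Circle) : ℂ) * ((z ^ m₃ : Circle) : ℂ)) / ((S n).card : ℂ) ^ 4) := by
    intro n
    have e1 : (fun x y z : Circle => La H c x * La H c y * La H c z) = fun x y z =>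
        ∑ m₁ ∈ A, (fun m₁ x y z => ∑ m₂ ∈ A, (fun m₂ x y z => ∑ m₃ ∈ A, (fun m₃ x y z =>
          (c m₁ * c m₂ * c m₃) * (((x ^ m₁ : Circle) : ℂ) *
          ((y ^ m₂ : Circle) : ℂ) * ((z ^ m₃ : Circle) : ℂ))) m₃ x y z) m₂ x y z) m₁ x y z := by
      funext x y z
      unfold La
      rw [Finset.sum_mul_sum, Finset.sum_mul]
      refine Finset.sum_congr rfl fun m₁ _ => ?_
      rw [Finset.sum_mul]
      refine Finset.sum_congr rfl fun m₂ _ => ?_
      rw [Finset.mul_sum]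
      refine Finset.sum_congr rfl fun m₃ _ => ?_
      ring
    rw [e1, T4_sum, Finset.sum_div]
    refine Finset.sum_congr rfl fun m₁ _ => ?_
    rw [T4_sum, Finset.sum_div]
    refine Finset.sum_congr rfl fun m₂ _ => ?_
    rw [T4_sum, Finset.sum_div]
    refine Finset.sum_congr rfl fun m₃ _ => ?_
    rw [T4_mul, mul_div_assoc]
  simp only [h1]
  have h2 : c 0 ^ 3 = ∑ m₁ ∈ A, ∑ m₂ ∈ A, ∑ m₃ ∈ A, (c m₁ * c m₂ * c m₃) *
      (if m₁ = 0 ∧ m₂ = 0 ∧ m₃ = 0 then 1 else 0) := by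
    have h0 : (0:ℤ) ∈ A := by rw [hA, Finset.mem_Icc]; omega
    rw [Finset.sum_eq_single_of_mem 0 h0, Finset.sum_eq_single_of_mem 0 h0,
      Finset.sum_eq_single_of_mem 0 h0]
    · simp; ring
    · intro m _ hm; simp [hm]
    · intro m _ hm; simp [hm]
    · intro m _ hm; simp [hm]
  rw [h2]
  refine tendsto_finsetSum _ fun m₁ hm₁ => tendsto_finsetSum _ fun m₂ hm₂ =>
    tendsto_finsetSum _ fun m₃ hm₃ => tendsto_const_nhds.mul ?_
  rw [hA, Finset.mem_Icc] at hm₁ hm₂ hm₃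
  by_cases h0 : m₁ = 0 ∧ m₂ = 0 ∧ m₃ = 0
  · rw [if_pos h0]
    obtain ⟨rfl, rfl, rfl⟩ := h0
    have := h.E4_prod (F := fun _ => 1) h.E3_oneC
    refine this.congr fun n => ?_
    simp
  · rw [if_neg h0]
    exact h.E4_pow m₁ m₂ m₃ h0 (abs_le.2 hm₁) (abs_le.2 hm₂) (abs_le.2 hm₃)

end seq

end Pool.Agent.Q188.TP
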