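import Pool.Agent.Q188.TP.Fin

/-!
# Bilinear bounds, arcs, and subsets with few phases
-/

set_option autoImplicit false

namespace Pool.Agent.Q188.TP

open Matrix Pool.Agent.H109R2 Filter Topology
open scoped ComplexOrder ComplexConjugate

variable {d : ℕ} {x : Fin (d ^ 2) → EuclideanSpace ℂ (Fin d)}

lemma one_le_of_fin (i : Fin (d ^ 2)) : 1 ≤ d := by
  rcases Nat.eq_zero_or_pos d with rfl | h
  · have := i.2
    simp at this
  · exact h

lemma KK_le (d m : ℕ) : KK d m ≤ sq d ^ 3 := by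
  unfold KK
  split_ifs
  · exact pow_le_pow_right₀ (one_le_sq d) (by norm_num)
  · exact le_rfl

lemma KK_nonneg (d m : ℕ) : 0 ≤ KK d m := by
  have := sq_pos d
  unfold KK
  split_ifs <;> positivity

theorem bilinear (hx : SIC.IsMaxETF d x) (i : Fin (d ^ 2)) (f g : Fin (d ^ 2) → ℂ) (m : ℕ)
    (h1 : 1 ≤ m) (h3 : m ≤ 3) :
    ‖∑ j, ∑ k, if i ≠ j ∧ j ≠ k ∧ k ≠ i then f j * g k * ph x i j k ^ m else 0‖ ≤
      KK d m * √(∑ j, ‖f j‖ ^ 2) * √(∑ k, ‖g k‖ ^ 2) := by
  have hd := one_le_of_fin i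
  set a : Fin (d ^ 2) → ℂ := fun j => if j = i then 0 else f j * ((uu x i j : Circle) : ℂ) ^ m
    with ha
  set b : Fin (d ^ 2) → ℂ := fun k => if k = i then 0 else g k * ((uu x k i : Circle) : ℂ) ^ m
    with hb
  have h := uu_bil hd hx m h1 h3 a b
  have e1 : ∀ j k, (if i ≠ j ∧ j ≠ k ∧ k ≠ i then f j * g k * ph x i j k ^ m else 0) =
      a j * (if j = k then 0 else ((uu x j k : Circle) : ℂ) ^ m) * b k := by
    intro j k
    by_cases hD : D3 i j k
    · have hD' : i ≠ j ∧ j ≠ k ∧ k ≠ i := hD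
      rw [if_pos hD', ← ph_eq hx hD]
      simp only [ha, hb]
      rw [if_neg (Ne.symm hD.1), if_neg hD.2.1, if_neg hD.2.2]
      unfold tt
      rw [Circle.coe_mul, Circle.coe_mul]
      ring
    · have hD' : ¬ (i ≠ j ∧ j ≠ k ∧ k ≠ i) := hD
      rw [if_neg hD']
      by_cases hj : j = i
      · simp only [ha]
        rw [if_pos hj]; ring
      · by_cases hk : k = i
        · simp only [hb]
          rw [if_pos hk]; ring
        · have : j = k := by
            by_contra hjk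
            exact hD' ⟨fun h => hj h.symm, hjk, hk⟩
          rw [if_pos this]; ring
  simp only [e1]
  refine h.trans ?_
  have ha' : ∑ j, ‖a j‖ ^ 2 ≤ ∑ j, ‖f j‖ ^ 2 := by
    refine Finset.sum_le_sum fun j _ => ?_
    simp only [ha]
    split_ifs
    · simp
    · rw [norm_mul, norm_pow, Circle.norm_coe]
      simp
  have hb' : ∑ j, ‖b j‖ ^ 2 ≤ ∑ j, ‖g j‖ ^ 2 := by
    refine Finset.sum_le_sum fun j _ => ?_
    simp only [hb]
    split_ifs
    · simp
    · rw [norm_mul, norm_pow, Circle.norm_coe]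
      simp
  have := KK_nonneg d m
  gcongr

lemma ph_norm (hx : SIC.IsMaxETF d x) {i j k : Fin (d ^ 2)} (h : D3 i j k) : ‖ph x i j k‖ = 1 := by
  rw [← ph_eq hx h, Circle.norm_coe]

/-- pointwise inequality -/
lemma arc_poly {z : ℂ} (hz : ‖z‖ = 1) {b : ℝ} (hb : -1 ≤ b) (hb' : b ≤ 1) {a : ℝ} (ha : a ^ 2 = 1 / 2)
    (ha0 : 0 ≤ a) :
    (a - b) + (5 / 4 - 2 * a * b) * z.re + (a - b / 2) * (z ^ 2).re + 1 / 4 * (z ^ 3).re ≤
      if b ≤ z.re then 6 else 0 := by
  have h1 : z.re ^ 2 + z.im ^ 2 = 1 := by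
    have := Complex.normSq_apply z
    rw [Complex.normSq_eq_norm_sq, hz] at this
    nlinarith [this]
  have h2 : (z ^ 2).re = 2 * z.re ^ 2 - 1 := by
    rw [pow_two, Complex.mul_re]
    nlinarith
  have h3 : (z ^ 3).re = 4 * z.re ^ 3 - 3 * z.re := by
    have : (z ^ 3).re = z.re ^ 3 - 3 * z.re * z.im ^ 2 := by
      rw [pow_succ, pow_two, Complex.mul_re, Complex.mul_re, Complex.mul_im]
      ring
    rw [this]
    have h4 : z.im ^ 2 = 1 - z.re ^ 2 := by linarith
    rw [h4]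
    ring
  have e : (a - b) + (5 / 4 - 2 * a * b) * z.re + (a - b / 2) * (z ^ 2).re + 1 / 4 * (z ^ 3).re =
      (z.re - b) * (z.re + a) ^ 2 := by
    rw [h2, h3]
    have : (z.re - b) * (z.re + a) ^ 2 = z.re ^ 3 + (2 * a - b) * z.re ^ 2 +
        (a ^ 2 - 2 * a * b) * z.re - a ^ 2 * b := by ring
    rw [this, ha]
    ring
  rw [e]
  have hre : z.re ≤ 1 := by
    have := Complex.re_le_norm z
    rwa [hz] at this
  have hre' : -1 ≤ z.re := by
    have := Complex.abs_re_le_norm z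
    rw [hz] at this
    exact (abs_le.1 this).1
  have ha1 : a ≤ 71 / 100 := by nlinarith
  split_ifs with h
  · have h5 : z.re - b ≤ 2 := by linarith
    have h6 : (z.re + a) ^ 2 ≤ 3 := by nlinarith
    have h7 : 0 ≤ (z.re + a) ^ 2 := sq_nonneg _
    nlinarith
  · have h7 : 0 ≤ (z.re + a) ^ 2 := sq_nonneg _
    push Not at h
    nlinarith

theorem arcs (hx : SIC.IsMaxETF d x) (i : Fin (d ^ 2)) (B C : Finset (Fin (d ^ 2))) (hB : i ∉ B)
    (hC : i ∉ C) (hBC : Disjoint B C) (ω : ℂ) (b : ℝ) (hω : ‖ω‖ = 1) (hb : -1 ≤ b) (hb' : b ≤ 1) :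
    (1 / √2 - b) * (B.card * C.card) - 5 * √((d : ℝ) + 1) ^ 3 * √(B.card * C.card) ≤
      6 * ((B ×ˢ C).filter fun p => b ≤ (conj ω * ph x i p.1 p.2).re).card := by
  classical
  set a : ℝ := 1 / √2 with ha
  have ha2 : a ^ 2 = 1 / 2 := by
    rw [ha, div_pow, Real.sq_sqrt (by norm_num)]; norm_num
  have ha0 : 0 ≤ a := by positivity
  have ha1 : a ≤ 71 / 100 := by nlinarith
  have hD : ∀ j ∈ B, ∀ k ∈ C, D3 i j k := by
    intro j hj k hk
    refine ⟨?_, ?_, ?_⟩
    · rintro rfl; exact hB hj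
    · rintro rfl; exact Finset.disjoint_left.1 hBC hj hk
    · rintro rfl; exact hC hk
  have hn : ∀ j ∈ B, ∀ k ∈ C, ‖conj ω * ph x i j k‖ = 1 := by
    intro j hj k hk
    rw [norm_mul, ph_norm hx (hD j hj k hk), RCLike.norm_conj, hω, one_mul]
  -- power sums
  have hS : ∀ m : ℕ, 1 ≤ m → m ≤ 3 → |∑ j ∈ B, ∑ k ∈ C, ((conj ω * ph x i j k) ^ m).re| ≤
      sq d ^ 3 * √(B.card * C.card) := by
    intro m h1 h3
    have h := bilinear hx i (fun j => if j ∈ B then 1 else 0) (fun k => if k ∈ C then (conj ω) ^ m else 0)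
      m h1 h3
    have e1 : ∑ j, ‖(if j ∈ B then (1:ℂ) else 0)‖ ^ 2 = (B.card : ℝ) := by
      have : ∀ j, ‖(if j ∈ B then (1:ℂ) else 0)‖ ^ 2 = if j ∈ B then (1:ℝ) else 0 := by
        intro j; split_ifs <;> simp
      simp only [this]
      simp
    have e2 : ∑ j, ‖(if j ∈ C then (conj ω) ^ m else 0)‖ ^ 2 = (C.card : ℝ) := by
      have : ∀ j, ‖(if j ∈ C then (conj ω) ^ m else 0)‖ ^ 2 = if j ∈ C then (1:ℝ) else 0 := by
        intro j; split_ifs
        · rw [norm_pow, RCLike.norm_conj, hω]; simp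
        · simp
      simp only [this]
      simp
    rw [e1, e2] at h
    have e3 : ∑ j, ∑ k, (if i ≠ j ∧ j ≠ k ∧ k ≠ i then
        (if j ∈ B then (1:ℂ) else 0) * (if k ∈ C then (conj ω) ^ m else 0) * ph x i j k ^ m else 0) =
        ∑ j ∈ B, ∑ k ∈ C, (conj ω * ph x i j k) ^ m := by
      rw [← Finset.sum_filter_add_sum_filter_not Finset.univ (fun j => j ∈ B)]
      have z1 : ∑ j ∈ Finset.univ.filter (fun j => ¬ j ∈ B), ∑ k,
          (if i ≠ j ∧ j ≠ k ∧ k ≠ i then
        (if j ∈ B then (1:ℂ) else 0) * (if k ∈ C then (conj ω) ^ m else 0) * ph x i j k ^ m else 0) = 0 := by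
        refine Finset.sum_eq_zero fun j hj => Finset.sum_eq_zero fun k _ => ?_
        rw [if_neg (Finset.mem_filter.1 hj).2]
        simp
      rw [z1, add_zero]
      have f1 : Finset.univ.filter (fun j => j ∈ B) = B := by ext j; simp
      rw [f1]
      refine Finset.sum_congr rfl fun j hj => ?_
      rw [← Finset.sum_filter_add_sum_filter_not Finset.univ (fun j => j ∈ C)]
      have z2 : ∑ k ∈ Finset.univ.filter (fun j => ¬ j ∈ C),
          (if i ≠ j ∧ j ≠ k ∧ k ≠ i then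
        (if j ∈ B then (1:ℂ) else 0) * (if k ∈ C then (conj ω) ^ m else 0) * ph x i j k ^ m else 0) = 0 := by
        refine Finset.sum_eq_zero fun k hk => ?_
        rw [if_neg (Finset.mem_filter.1 hk).2]
        simp
      rw [z2, add_zero]
      have f2 : Finset.univ.filter (fun j => j ∈ C) = C := by ext j; simp
      rw [f2]
      refine Finset.sum_congr rfl fun k hk => ?_
      rw [if_pos (show i ≠ j ∧ j ≠ k ∧ k ≠ i from hD j hj k hk), if_pos hj, if_pos hk, one_mul,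
        mul_pow]
    rw [e3] at h
    have e4 : ∑ j ∈ B, ∑ k ∈ C, ((conj ω * ph x i j k) ^ m).re =
        (∑ j ∈ B, ∑ k ∈ C, (conj ω * ph x i j k) ^ m).re := by
      rw [Complex.re_sum]
      refine Finset.sum_congr rfl fun j _ => ?_
      rw [Complex.re_sum]
    rw [e4]
    refine (Complex.abs_re_le_norm _).trans (h.trans ?_)
    rw [mul_assoc, ← Real.sqrt_mul (by positivity)]
    exact mul_le_mul_of_nonneg_right (KK_le d m) (Real.sqrt_nonneg _)
  have hpt : ∑ j ∈ B, ∑ k ∈ C, ((a - b) + (5 / 4 - 2 * a * b) * (conj ω * ph x i j k).re +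
      (a - b / 2) * ((conj ω * ph x i j k) ^ 2).re + 1 / 4 * ((conj ω * ph x i j k) ^ 3).re) ≤
      ∑ j ∈ B, ∑ k ∈ C, (if b ≤ (conj ω * ph x i j k).re then (6:ℝ) else 0) :=
    Finset.sum_le_sum fun j hj => Finset.sum_le_sum fun k hk =>
      arc_poly (hn j hj k hk) hb hb' ha2 ha0
  have e5 : ∑ j ∈ B, ∑ k ∈ C, (if b ≤ (conj ω * ph x i j k).re then (6:ℝ) else 0) =
      6 * ((B ×ˢ C).filter fun p => b ≤ (conj ω * ph x i p.1 p.2).re).card := by
    rw [← Finset.sum_product', ← Finset.sum_filter, Finset.sum_const, nsmul_eq_mul]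
    ring
  rw [e5] at hpt
  have e6 : ∑ j ∈ B, ∑ k ∈ C, ((a - b) + (5 / 4 - 2 * a * b) * (conj ω * ph x i j k).re +
      (a - b / 2) * ((conj ω * ph x i j k) ^ 2).re + 1 / 4 * ((conj ω * ph x i j k) ^ 3).re) =
      (a - b) * (B.card * C.card) +
      (5 / 4 - 2 * a * b) * (∑ j ∈ B, ∑ k ∈ C, ((conj ω * ph x i j k) ^ 1).re) +
      (a - b / 2) * (∑ j ∈ B, ∑ k ∈ C, ((conj ω * ph x i j k) ^ 2).re) +
      1 / 4 * (∑ j ∈ B, ∑ k ∈ C, ((conj ω * ph x i j k) ^ 3).re) := by
    simp only [Finset.sum_add_distrib, Finset.mul_sum, pow_one, Finset.sum_const, nsmul_eq_mul]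
    ring
  rw [e6] at hpt
  have s1 := abs_le.1 (hS 1 le_rfl (by norm_num))
  have s2 := abs_le.1 (hS 2 (by norm_num) (by norm_num))
  have s3 := abs_le.1 (hS 3 (by norm_num) le_rfl)
  set R := sq d ^ 3 * √((B.card : ℝ) * C.card) with hR
  have hR0 : 0 ≤ R := by have := sq_pos d; positivity
  have t1 : -(R * 3) ≤ (5 / 4 - 2 * a * b) * (∑ j ∈ B, ∑ k ∈ C, ((conj ω * ph x i j k) ^ 1).re) := by
    have hab : |5 / 4 - 2 * a * b| ≤ 3 := by
      rw [abs_le]; constructor <;> nlinarith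
    have := abs_mul (5 / 4 - 2 * a * b) (∑ j ∈ B, ∑ k ∈ C, ((conj ω * ph x i j k) ^ 1).re)
    have h8 : |(5 / 4 - 2 * a * b) * (∑ j ∈ B, ∑ k ∈ C, ((conj ω * ph x i j k) ^ 1).re)| ≤ 3 * R := by
      rw [this]
      exact mul_le_mul hab (hS 1 le_rfl (by norm_num)) (abs_nonneg _) (by norm_num)
    have := (abs_le.1 h8).1
    linarith
  have t2 : -(R * (3 / 2)) ≤ (a - b / 2) * (∑ j ∈ B, ∑ k ∈ C, ((conj ω * ph x i j k) ^ 2).re) := by
    have hab : |a - b / 2| ≤ 3 / 2 := by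
      rw [abs_le]; constructor <;> nlinarith
    have := abs_mul (a - b / 2) (∑ j ∈ B, ∑ k ∈ C, ((conj ω * ph x i j k) ^ 2).re)
    have h8 : |(a - b / 2) * (∑ j ∈ B, ∑ k ∈ C, ((conj ω * ph x i j k) ^ 2).re)| ≤ 3 / 2 * R := by
      rw [this]
      exact mul_le_mul hab (hS 2 (by norm_num) (by norm_num)) (abs_nonneg _) (by norm_num)
    have := (abs_le.1 h8).1
    linarith
  have e7 : √((d : ℝ) + 1) = sq d := rfl
  rw [e7]
  have e8 : 5 * sq d ^ 3 * √((B.card : ℝ) * C.card) = 5 * R := by rw [hR]; ring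
  rw [e8]
  linarith [s3.1]

/-- the quadratic form on a test vector -/
lemma clique_sum (hx : SIC.IsMaxETF d x) (S : Finset (Fin (d ^ 2))) (i : Fin (d ^ 2)) (hi : i ∈ S)
    (ε : ℝ) (hε : ε ^ 2 = 1)
    (h : ∀ j ∈ S, ∀ k ∈ S, D3 i j k → ph x i j k ^ 2 = (ε : ℂ)) :
    ∃ v : Fin (d ^ 2) → ℂ, nsq v = S.card ∧
      (star v ⬝ᵥ ((G x ⊙ G x) *ᵥ v)).re = S.card + ε * (S.card * (S.card - 1)) / (d + 1) := by
  classical
  have hεc : (ε : ℂ) ^ 2 = 1 := by exact_mod_cast hε
  set v : Fin (d ^ 2) → ℂ := fun j => if j ∈ S then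
    (if j = i then (ε : ℂ) else ((uu x j i : Circle) : ℂ) ^ 2) else 0 with hv
  have hvn : ∀ j ∈ S, star (v j) * v j = 1 := by
    intro j hj
    simp only [hv]
    rw [if_pos hj]
    split_ifs with hji
    · rw [RCLike.star_def, Complex.conj_ofReal, ← pow_two, hεc]
    · rw [RCLike.star_def, mul_comm, Complex.mul_conj, Complex.normSq_eq_norm_sq, norm_pow,
        Circle.norm_coe]
      simp
  have hv0 : ∀ j, j ∉ S → v j = 0 := by
    intro j hj
    simp only [hv]
    rw [if_neg hj]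
  have hn : nsq v = S.card := by
    have h1 : ∀ j, ‖v j‖ ^ 2 = if j ∈ S then (1:ℝ) else 0 := by
      intro j
      split_ifs with hj
      · have h2 := hvn j hj
        rw [RCLike.star_def, mul_comm, Complex.mul_conj, Complex.normSq_eq_norm_sq] at h2
        exact_mod_cast h2
      · rw [hv0 j hj]; simp
    unfold nsq
    simp only [h1]
    simp
  refine ⟨v, hn, ?_⟩
  have hs := sq_pos d
  have hss : ((sq d : ℝ) : ℂ) ^ 2 = ((d : ℂ) + 1) := by
    have := sq_sq d
    exact_mod_cast congrArg (fun t : ℝ => (t : ℂ)) this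
  have hs0 : ((d : ℂ) + 1) ≠ 0 := by
    rw [← hss]
    exact pow_ne_zero _ (by exact_mod_cast hs.ne')
  -- off-diagonal entries
  have hoff : ∀ j ∈ S, ∀ k ∈ S, j ≠ k → star (v j) * ((G x ⊙ G x) j k * v k) = (ε : ℂ) / ((d:ℂ) + 1) := by
    intro j hj k hk hjk
    have h1 : (G x ⊙ G x) j k = ((uu x j k : Circle) : ℂ) ^ 2 / ((d:ℂ) + 1) := by
      rw [hadamard_apply, uu_coe hx hjk, mul_pow, hss]
      field_simp
      simp [gram, pow_two]
    rw [h1]
    have h2 : star (v j) * ((uu x j k : Circle) : ℂ) ^ 2 * v k = (ε : ℂ) := by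
      simp only [hv]
      rw [if_pos hj, if_pos hk]
      by_cases hji : j = i
      · have hki : k ≠ i := fun h => hjk (hji.trans h.symm)
        rw [if_pos hji, if_neg hki, RCLike.star_def, Complex.conj_ofReal, hji, uu_inv hx i k]
        have : ((uu x i k : Circle) : ℂ) ≠ 0 := Circle.coe_ne_zero _
        rw [Circle.coe_inv]
        field_simp
      · by_cases hki : k = i
        · rw [if_neg hji, if_pos hki, hki]
          have : star (((uu x j i : Circle) : ℂ) ^ 2) * ((uu x j i : Circle) : ℂ) ^ 2 = 1 := by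
            rw [RCLike.star_def, mul_comm, Complex.mul_conj, Complex.normSq_eq_norm_sq, norm_pow,
              Circle.norm_coe]
            simp
          rw [this, one_mul]
        · have hD : D3 i j k := ⟨fun h => hji h.symm, hjk, hki⟩
          rw [if_neg hji, if_neg hki, ← h j hj k hk hD, ← ph_eq hx hD]
          have : star (((uu x j i : Circle) : ℂ) ^ 2) = ((uu x i j : Circle) : ℂ) ^ 2 := by
            rw [uu_inv hx j i, star_pow, Circle.coe_inv_eq_conj]
            rfl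
          rw [this]
          unfold tt
          rw [Circle.coe_mul, Circle.coe_mul]
          ring
    rw [← h2]
    ring
  have hdiag : ∀ j ∈ S, star (v j) * ((G x ⊙ G x) j j * v j) = 1 := by
    intro j hj
    have : (G x ⊙ G x) j j = 1 := by
      rw [hadamard_apply]
      have h00 : G x j j = (inner ℂ (x j) (x j) : ℂ) := rfl
      rw [h00, Phases.self_inner hx]
      simp
    rw [this, one_mul]
    exact hvn j hj
  have hsum : star v ⬝ᵥ ((G x ⊙ G x) *ᵥ v) =
      ((S.card + ε * (S.card * (S.card - 1)) / (d + 1) : ℝ) : ℂ) := by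
    have h1 : star v ⬝ᵥ ((G x ⊙ G x) *ᵥ v) = ∑ j ∈ S, ∑ k ∈ S, star (v j) * ((G x ⊙ G x) j k * v k) := by
      unfold dotProduct mulVec dotProduct
      have h2 : ∀ j, star v j * ∑ k, (G x ⊙ G x) j k * v k =
          if j ∈ S then ∑ k ∈ S, star (v j) * ((G x ⊙ G x) j k * v k) else 0 := by
        intro j
        split_ifs with hj
        · rw [← Finset.mul_sum]
          congr 1
          symm
          apply Finset.sum_subset (Finset.subset_univ S)
          intro k _ hk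
          rw [hv0 k hk, mul_zero]
        · rw [Pi.star_apply, hv0 j hj]
          simp
      simp only [h2]
      rw [← Finset.sum_filter]
      congr 1
      ext j; simp
    rw [h1]
    have h3 : ∀ j ∈ S, ∑ k ∈ S, star (v j) * ((G x ⊙ G x) j k * v k) =
        1 + (ε : ℂ) / ((d:ℂ) + 1) * ((S.card : ℂ) - 1) := by
      intro j hj
      rw [← Finset.add_sum_erase S _ hj, hdiag j hj]
      congr 1
      rw [Finset.sum_congr rfl (g := fun _ => (ε : ℂ) / ((d:ℂ) + 1))]
      · rw [Finset.sum_const, Finset.card_erase_of_mem hj, nsmul_eq_mul,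
          Nat.cast_sub (Finset.card_pos.2 ⟨j, hj⟩)]
        push_cast
        ring
      · intro k hk
        rw [Finset.mem_erase] at hk
        exact hoff j hj k hk.2 (Ne.symm hk.1)
    rw [Finset.sum_congr rfl h3, Finset.sum_const, nsmul_eq_mul]
    push_cast
    ring
  rw [hsum, Complex.ofReal_re]

/-- **Subsets with square phases `1`.** -/
theorem clique_pos (hx : SIC.IsMaxETF d x) (S : Finset (Fin (d ^ 2)))
    (h : ∀ i ∈ S, ∀ j ∈ S, ∀ k ∈ S, i ≠ j → j ≠ k → k ≠ i → ph x i j k ^ 2 = 1) : S.card ≤ d := by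
  rcases S.eq_empty_or_nonempty with rfl | ⟨i, hi⟩
  · simp
  have hd := one_le_of_fin i
  obtain ⟨v, hv1, hv2⟩ := clique_sum hx S i hi 1 (by norm_num) (fun j hj k hk hD => by
    rw [h i hi j hj k hk hD.1 hD.2.1 hD.2.2]; simp)
  have h2 := (G2_le hd hx).re_dotProduct_nonneg v
  rw [sub_mulVec, smul_mulVec, one_mulVec, dotProduct_sub, dotProduct_smul, star_dot_self,
    map_sub] at h2
  have h3 : RCLike.re (star v ⬝ᵥ (G x ⊙ G x) *ᵥ v) = (star v ⬝ᵥ (G x ⊙ G x) *ᵥ v).re := rfl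
  rw [h3, hv2, hv1] at h2
  have h4 : RCLike.re ((((2 * d / (d + 1) : ℝ) : ℂ)) • (((S.card : ℝ) : ℝ) : ℂ)) =
      2 * d / (d + 1) * S.card := by
    rw [smul_eq_mul, ← Complex.ofReal_mul]
    exact Complex.ofReal_re _
  rw [h4] at h2
  have hp : (0:ℝ) < (d:ℝ) + 1 := by positivity
  have hc : (0:ℝ) < S.card := by exact_mod_cast Finset.card_pos.2 ⟨i, hi⟩
  have h5 : (0:ℝ) ≤ (2 * d / (d + 1) * S.card - (S.card + 1 * (S.card * (S.card - 1)) / (d + 1))) *
      ((d:ℝ) + 1) := mul_nonneg h2 hp.le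
  have h6 : (2 * d / (d + 1) * S.card - (S.card + 1 * (S.card * (S.card - 1)) / (d + 1))) *
      ((d:ℝ) + 1) = S.card * (d - S.card) := by
    field_simp
    ring
  rw [h6] at h5
  have h7 : (0:ℝ) ≤ d - S.card := by
    by_contra hcon
    push Not at hcon
    nlinarith
  exact_mod_cast (by linarith : (S.card : ℝ) ≤ d)

/-- **Subsets with square phases `-1`.** -/
theorem clique_neg (hx : SIC.IsMaxETF d x) (S : Finset (Fin (d ^ 2)))
    (h : ∀ i ∈ S, ∀ j ∈ S, ∀ k ∈ S, i ≠ j → j ≠ k → k ≠ i → ph x i j k ^ 2 = -1) :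
    S.card ≤ d + 2 := by
  rcases S.eq_empty_or_nonempty with rfl | ⟨i, hi⟩
  · simp
  have hd := one_le_of_fin i
  obtain ⟨v, hv1, hv2⟩ := clique_sum hx S i hi (-1) (by norm_num) (fun j hj k hk hD => by
    rw [h i hi j hj k hk hD.1 hD.2.1 hD.2.2]; simp)
  have h2 := ((G_psd (x := x)).hadamard (G_psd (x := x))).re_dotProduct_nonneg v
  have h3 : RCLike.re (star v ⬝ᵥ (G x ⊙ G x) *ᵥ v) = (star v ⬝ᵥ (G x ⊙ G x) *ᵥ v).re := rfl
  rw [h3, hv2] at h2
  have hp : (0:ℝ) < (d:ℝ) + 1 := by positivity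
  have hc : (0:ℝ) < S.card := by exact_mod_cast Finset.card_pos.2 ⟨i, hi⟩
  have h5 : (0:ℝ) ≤ (S.card + -1 * (S.card * (S.card - 1)) / (d + 1)) *
      ((d:ℝ) + 1) := mul_nonneg h2 hp.le
  have h6 : (S.card + -1 * (S.card * (S.card - 1)) / (d + 1)) *
      ((d:ℝ) + 1) = S.card * (d + 2 - S.card) := by
    field_simp
    ring
  rw [h6] at h5
  have h7 : (0:ℝ) ≤ d + 2 - S.card := by
    by_contra hcon
    push Not at hcon
    nlinarith
  have h8 : (S.card : ℝ) ≤ ((d + 2 : ℕ) : ℝ) := by push_cast; linarith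
  exact_mod_cast h8

/-- **Subsets with few phases are small unless roots of unity occur.** -/
theorem few {q H p : ℕ} (hq : (q = 1 ∧ H = 3 ∧ p = 3) ∨ (q = 2 ∧ H = 1 ∧ p = 2))
    (Φ : Finset ℂ) (hΦ : Φ.card ≤ 2 * H + 1)
    (hno : ∀ h : ℕ, H < h → h ≤ 2 * H + 1 → ∀ ε : ℂ, ε = 1 ∨ ε = -1 → ∃ z, z ^ h = ε ∧ z ∉ Φ) :
    ∃ K : ℝ, ∀ (d : ℕ) (x : Fin (d ^ 2) → EuclideanSpace ℂ (Fin d)) (S : Finset (Fin (d ^ 2))),
      SIC.IsMaxETF d x →
      (∀ i ∈ S, ∀ j ∈ S, ∀ k ∈ S, i ≠ j → j ≠ k → k ≠ i → ph x i j k ^ q ∈ Φ) →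
      (S.card : ℝ) ≤ K * √((d : ℝ) + 1) ^ p := by
  classical
  by_contra hcon
  push Not at hcon
  choose d x S hx hS hlt using fun n : ℕ => hcon (n : ℝ)
  obtain ⟨h, h1, h2, ε, hε, hall, -⟩ := struct hq (Φ.filter fun z => ‖z‖ = 1)
    (fun φ hφ => (Finset.mem_filter.1 hφ).2)
    ((Finset.card_le_card (Finset.filter_subset _ _)).trans hΦ) d x S hx
    (by
      refine tendsto_atTop_mono (fun n => ?_) tendsto_natCast_atTop_atTop
      have hp : 0 < √((d n : ℝ) + 1) ^ p := by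
        have := sq_pos (d n)
        unfold sq at this
        positivity
      rw [le_div_iff₀ hp]
      exact (hlt n).le)
    (by
      intro δ hδ
      refine tendsto_const_nhds.congr fun n => ?_
      symm
      unfold mean
      rw [Finset.sum_eq_zero, zero_div]
      intro i hi
      refine Finset.sum_eq_zero fun j hj => Finset.sum_eq_zero fun k hk => ?_
      split_ifs with hD
      · beta_reduce
        rw [Set.indicator_of_notMem]
        intro hmem
        have h3 : ph (x n) i j k ^ q ∈ Φ.filter fun z => ‖z‖ = 1 := by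
          refine Finset.mem_filter.2 ⟨hS n i hi j hj k hk hD.1 hD.2.1 hD.2.2, ?_⟩
          rw [norm_pow, ph_norm (hx n) (show D3 i j k from hD), one_pow]
        have h4 := hmem _ h3
        rw [sub_self, norm_zero] at h4
        linarith
      · rfl)
  obtain ⟨z, hz, hz'⟩ := hno h h1 h2 ε hε
  exact hz' (Finset.mem_filter.1 (hall z hz)).1

end Pool.Agent.Q188.TP
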