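import Mathlib

/-!
# Unimodular systems: sums over triples and quadruples
-/

set_option autoImplicit false

namespace Pool.Agent.Q188.TP

open Finset

variable {I : Type} [DecidableEq I]

/-- pairwise distinct -/
def D3 (i j k : I) : Prop := i ≠ j ∧ j ≠ k ∧ k ≠ i

instance (i j k : I) : Decidable (D3 i j k) := by unfold D3; infer_instance

/-- pairwise distinct -/
def D4 (i j k l : I) : Prop := D3 i j k ∧ D3 i k l ∧ D3 i l j

instance (i j k l : I) : Decidable (D4 i j k l) := by unfold D4; infer_instance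

/-- the triple product -/
noncomputable def tt (u : I → I → Circle) (i j k : I) : Circle := u i j * u j k * u k i

/-- sum over the triples of distinct elements -/
noncomputable def T3 {α : Type} [AddCommMonoid α] (u : I → I → Circle) (S : Finset I)
    (F : Circle → α) : α :=
  ∑ i ∈ S, ∑ j ∈ S, ∑ k ∈ S, if D3 i j k then F (tt u i j k) else 0

/-- sum over the quadruples of distinct elements -/
noncomputable def T4 {α : Type} [AddCommMonoid α] (u : I → I → Circle) (S : Finset I)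
    (F : Circle → Circle → Circle → α) : α :=
  ∑ i ∈ S, ∑ j ∈ S, ∑ k ∈ S, ∑ l ∈ S,
    if D4 i j k l then F (tt u i j k) (tt u i k l) (tt u i l j) else 0

lemma T4_cyc {α : Type} [AddCommMonoid α] (u : I → I → Circle) (S : Finset I)
    (F : Circle → Circle → Circle → α) :
    T4 u S F = T4 u S (fun a b c => F b c a) := by
  unfold T4
  refine Finset.sum_congr rfl fun i _ => ?_
  -- rename (j,k,l) := (k,l,j)
  have h : ∀ G : I → I → I → α, ∑ j ∈ S, ∑ k ∈ S, ∑ l ∈ S, G j k l =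
      ∑ j ∈ S, ∑ k ∈ S, ∑ l ∈ S, G k l j := by
    intro G
    calc ∑ j ∈ S, ∑ k ∈ S, ∑ l ∈ S, G j k l
        = ∑ j ∈ S, ∑ l ∈ S, ∑ k ∈ S, G j k l := by
          refine Finset.sum_congr rfl fun j _ => ?_
          exact Finset.sum_comm
      _ = ∑ l ∈ S, ∑ j ∈ S, ∑ k ∈ S, G j k l := Finset.sum_comm
  rw [h]
  refine Finset.sum_congr rfl fun j _ => Finset.sum_congr rfl fun k _ =>
    Finset.sum_congr rfl fun l _ => ?_
  have e : D4 i k l j ↔ D4 i j k l := by
    unfold D4
    tauto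
  by_cases h1 : D4 i j k l
  · rw [if_pos h1, if_pos (e.2 h1)]
  · rw [if_neg h1, if_neg (fun h2 => h1 (e.1 h2))]

lemma sum_not_mem {S T : Finset I} (hT : T ⊆ S) :
    ∑ i ∈ S, (if i ∉ T then (1:ℝ) else 0) = (S.card : ℝ) - T.card := by
  rw [← Finset.sum_filter]
  have h1 : S.filter (fun i => i ∉ T) = S \ T := by
    ext i; simp [Finset.mem_sdiff]
  rw [h1, Finset.sum_const, nsmul_eq_mul, mul_one, Finset.card_sdiff_of_subset hT,
    Nat.cast_sub (Finset.card_le_card hT)]

/-- number of triples -/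
lemma T3_one (u : I → I → Circle) (S : Finset I) :
    T3 u S (fun _ => (1:ℝ)) = (S.card : ℝ) * ((S.card : ℝ) - 1) * ((S.card : ℝ) - 2) := by
  have h2 : ∀ i ∈ S, ∀ j ∈ S, ∑ k ∈ S, (if D3 i j k then (1:ℝ) else 0) =
      if i ≠ j then ((S.card : ℝ) - 2) else 0 := by
    intro i hi j hj
    by_cases hij : i = j
    · rw [if_neg (by simpa using hij)]
      refine Finset.sum_eq_zero fun k _ => ?_
      rw [if_neg (fun h => h.1 hij)]
    · rw [if_pos hij]
      have h3 := sum_not_mem (S := S) (T := {i, j}) (by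
        intro a ha
        rcases Finset.mem_insert.1 ha with h | h
        · exact h ▸ hi
        · exact (Finset.mem_singleton.1 h) ▸ hj)
      rw [Finset.card_pair hij] at h3
      push_cast at h3
      rw [← h3]
      refine Finset.sum_congr rfl fun k _ => ?_
      have e : D3 i j k ↔ k ∉ ({i, j} : Finset I) := by
        unfold D3
        simp only [Finset.mem_insert, Finset.mem_singleton, not_or]
        constructor
        · rintro ⟨-, h1, h2⟩; exact ⟨h2, Ne.symm h1⟩
        · rintro ⟨h1, h2⟩; exact ⟨hij, Ne.symm h2, h1⟩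
      simp only [e]
  have h1 : ∀ i ∈ S, ∑ j ∈ S, (if i ≠ j then ((S.card : ℝ) - 2) else 0) =
      ((S.card : ℝ) - 1) * ((S.card : ℝ) - 2) := by
    intro i hi
    have h3 := sum_not_mem (S := S) (T := {i}) (by simpa using hi)
    rw [Finset.card_singleton] at h3
    push_cast at h3
    rw [← h3, Finset.sum_mul]
    refine Finset.sum_congr rfl fun j _ => ?_
    by_cases hij : i = j
    · subst hij; simp
    · rw [if_pos hij, if_pos (by simpa using Ne.symm hij), one_mul]
  unfold T3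
  rw [Finset.sum_congr rfl fun i hi => (Finset.sum_congr rfl fun j hj => h2 i hi j hj).trans
    (h1 i hi), Finset.sum_const, nsmul_eq_mul]
  ring

omit [DecidableEq I] in
/-- the fourth triple product -/
lemma tt_cocycle {u : I → I → Circle} (hu : ∀ j k, u k j = (u j k)⁻¹) (i j k l : I) :
    tt u i j k * tt u i k l * tt u i l j = tt u j k l := by
  unfold tt
  rw [hu i k, hu i l, hu i j]
  generalize u i j = a
  generalize u i k = b
  generalize u i l = c
  generalize u j k = e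
  generalize u k l = f
  generalize u l j = g
  apply Circle.ext
  push_cast
  have ha := Circle.coe_ne_zero a
  have hb := Circle.coe_ne_zero b
  have hc := Circle.coe_ne_zero c
  field_simp

section estimates

/-- unimodular system with bilinear bounds for the powers up to `H` -/
structure Sys {I : Type} [Fintype I] [DecidableEq I] (u : I → I → Circle) (H : ℕ) (K : ℝ) :
    Prop where
  inv : ∀ j k, u k j = (u j k)⁻¹
  bil : ∀ e : ℕ, 1 ≤ e → e ≤ H → ∀ a b : I → ℂ,
    ‖∑ j, ∑ k, a j * (if j = k then 0 else ((u j k : Circle) : ℂ) ^ e) * b k‖ ≤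
      K * √(∑ j, ‖a j‖ ^ 2) * √(∑ k, ‖b k‖ ^ 2)

/-- integer powers off the diagonal -/
noncomputable def V (u : I → I → Circle) (m : ℤ) (j k : I) : ℂ :=
  if j = k then 0 else ((u j k ^ m : Circle) : ℂ)

variable [Fintype I] {u : I → I → Circle} {H : ℕ} {K : ℝ}

lemma V_neg (h : Sys u H K) (m : ℤ) (j k : I) : V u (-m) j k = V u m k j := by
  unfold V
  by_cases hjk : j = k
  · rw [if_pos hjk, if_pos hjk.symm]
  · rw [if_neg hjk, if_neg (Ne.symm hjk), h.inv j k, inv_zpow, zpow_neg]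

lemma Sys.bilZ (h : Sys u H K) (m : ℤ) (hm : m ≠ 0) (hm' : |m| ≤ H) (a b : I → ℂ) :
    ‖∑ j, ∑ k, a j * V u m j k * b k‖ ≤ K * √(∑ j, ‖a j‖ ^ 2) * √(∑ k, ‖b k‖ ^ 2) := by
  have hpos : ∀ e : ℕ, 1 ≤ e → e ≤ H → ∀ a b : I → ℂ,
      ‖∑ j, ∑ k, a j * V u (e:ℤ) j k * b k‖ ≤ K * √(∑ j, ‖a j‖ ^ 2) * √(∑ k, ‖b k‖ ^ 2) := by
    intro e h1 h2 a b
    refine le_trans (le_of_eq ?_) (h.bil e h1 h2 a b)
    congr 1
  rcases lt_or_gt_of_ne hm with h0 | h0
  · obtain ⟨e, he⟩ : ∃ e : ℕ, -m = e := ⟨(-m).toNat, (Int.toNat_of_nonneg (by omega)).symm⟩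
    have he' : m = -(e:ℤ) := by omega
    rw [abs_of_neg h0] at hm'
    have h1 := hpos e (by omega) (by omega) b a
    have e2 : ∑ j, ∑ k, a j * V u m j k * b k = ∑ j, ∑ k, b j * V u (e:ℤ) j k * a k := by
      rw [Finset.sum_comm]
      refine Finset.sum_congr rfl fun j _ => Finset.sum_congr rfl fun k _ => ?_
      rw [he', V_neg h]
      ring
    rw [e2]
    refine h1.trans (le_of_eq (by ring))
  · obtain ⟨e, he⟩ : ∃ e : ℕ, m = e := ⟨m.toNat, (Int.toNat_of_nonneg (by omega)).symm⟩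
    rw [abs_of_pos h0] at hm'
    subst he
    exact hpos e (by omega) (by omega) a b

lemma Sys.bilS (h : Sys u H K) (hK : 0 ≤ K) (m : ℤ) (hm : m ≠ 0) (hm' : |m| ≤ H) (S : Finset I)
    (a b : I → ℂ) (ha : ∀ j, ‖a j‖ ≤ 1) (hb : ∀ j, ‖b j‖ ≤ 1) :
    ‖∑ j ∈ S, ∑ k ∈ S, a j * V u m j k * b k‖ ≤ K * S.card := by
  have h1 := h.bilZ m hm hm' (fun j => if j ∈ S then a j else 0) (fun j => if j ∈ S then b j else 0)
  have e1 : ∑ j, ∑ k, (if j ∈ S then a j else 0) * V u m j k * (if k ∈ S then b k else 0) =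
      ∑ j ∈ S, ∑ k ∈ S, a j * V u m j k * b k := by
    rw [← Finset.sum_filter_add_sum_filter_not Finset.univ (fun j => j ∈ S)]
    have z : ∑ j ∈ Finset.univ.filter (fun j => j ∉ S),
        ∑ k, (if j ∈ S then a j else 0) * V u m j k * (if k ∈ S then b k else 0) = 0 := by
      refine Finset.sum_eq_zero fun j hj => Finset.sum_eq_zero fun k _ => ?_
      rw [if_neg (Finset.mem_filter.1 hj).2]
      ring
    rw [z, add_zero]
    have hf : Finset.univ.filter (fun j => j ∈ S) = S := by ext; simp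
    rw [hf]
    refine Finset.sum_congr rfl fun j hj => ?_
    rw [← Finset.sum_filter_add_sum_filter_not Finset.univ (fun k => k ∈ S)]
    have z : ∑ k ∈ Finset.univ.filter (fun k => k ∉ S),
        (if j ∈ S then a j else 0) * V u m j k * (if k ∈ S then b k else 0) = 0 := by
      refine Finset.sum_eq_zero fun k hk => ?_
      rw [if_neg (Finset.mem_filter.1 hk).2]
      ring
    rw [z, add_zero, hf]
    refine Finset.sum_congr rfl fun k hk => ?_
    rw [if_pos hj, if_pos hk]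
  have hn : ∀ c : I → ℂ, (∀ j, ‖c j‖ ≤ 1) →
      √(∑ j, ‖(fun j => if j ∈ S then c j else 0) j‖ ^ 2) ≤ √(S.card : ℝ) := by
    intro c hc
    apply Real.sqrt_le_sqrt
    calc ∑ j, ‖(fun j => if j ∈ S then c j else 0) j‖ ^ 2
        ≤ ∑ j, (if j ∈ S then (1:ℝ) else 0) := by
          refine Finset.sum_le_sum fun j _ => ?_
          by_cases hj : j ∈ S
          · simp only [hj, if_true]
            exact pow_le_one₀ (norm_nonneg _) (hc j)
          · simp [hj]
      _ = S.card := by simp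
  rw [e1] at h1
  refine h1.trans ?_
  calc K * √(∑ j, ‖(fun j => if j ∈ S then a j else 0) j‖ ^ 2) *
        √(∑ j, ‖(fun j => if j ∈ S then b j else 0) j‖ ^ 2)
      ≤ K * √(S.card : ℝ) * √(S.card : ℝ) := by
        exact mul_le_mul (mul_le_mul_of_nonneg_left (hn a ha) hK) (hn b hb) (Real.sqrt_nonneg _)
          (by positivity)
    _ = K * S.card := by
        rw [mul_assoc, Real.mul_self_sqrt (by positivity)]

lemma ite_le (p : Prop) [Decidable p] (z : Circle) : ‖if p then (z : ℂ) else 0‖ ≤ 1 := by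
  split_ifs
  · exact (Circle.norm_coe z).le
  · simp

lemma norm_circle_pow (z : Circle) (m : ℤ) : ‖((z ^ m : Circle) : ℂ)‖ = 1 := Circle.norm_coe _

/-- bound for triples -/
lemma Sys.bound3 (h : Sys u H K) (hK : 0 ≤ K) (m : ℤ) (hm : m ≠ 0) (hm' : |m| ≤ H) (S : Finset I) :
    ‖T3 u S (fun z => ((z ^ m : Circle) : ℂ))‖ ≤ K * (S.card : ℝ) ^ 2 := by
  unfold T3
  have h1 : ∀ i ∈ S, ‖∑ j ∈ S, ∑ k ∈ S, (if D3 i j k then ((tt u i j k ^ m : Circle) : ℂ) else 0)‖
      ≤ K * S.card := by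
    intro i _
    have h2 := h.bilS hK m hm hm' S (fun j => if i ≠ j then ((u i j ^ m : Circle) : ℂ) else 0)
      (fun k => if k ≠ i then ((u k i ^ m : Circle) : ℂ) else 0)
      (fun j => ite_le _ _) (fun j => ite_le _ _)
    refine le_trans (le_of_eq ?_) h2
    congr 1
    refine Finset.sum_congr rfl fun j _ => Finset.sum_congr rfl fun k _ => ?_
    unfold V
    by_cases h3 : i = j
    · simp [h3, D3]
    by_cases h4 : j = k
    · simp [h4, D3]
    by_cases h5 : k = i
    · simp [h5, D3]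
    have h6 : D3 i j k := ⟨h3, h4, h5⟩
    rw [if_pos h6, if_pos h3, if_neg h4, if_pos h5]
    have e1 : tt u i j k ^ m = u i j ^ m * u j k ^ m * u k i ^ m := by
      unfold tt
      rw [mul_zpow, mul_zpow]
    rw [e1]
    push_cast
    ring
  calc _ ≤ ∑ i ∈ S, ‖∑ j ∈ S, ∑ k ∈ S, (if D3 i j k then ((tt u i j k ^ m : Circle) : ℂ) else 0)‖ :=
        norm_sum_le _ _
    _ ≤ ∑ _i ∈ S, K * S.card := Finset.sum_le_sum h1
    _ = K * (S.card : ℝ) ^ 2 := by rw [Finset.sum_const, nsmul_eq_mul]; ring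

/-- bound for quadruples, first exponent not zero -/
lemma Sys.bound4' (h : Sys u H K) (hK : 0 ≤ K) (m₁ m₂ m₃ : ℤ) (hm : m₁ ≠ 0) (hm' : |m₁| ≤ H)
    (S : Finset I) :
    ‖T4 u S (fun a b c => ((a ^ m₁ : Circle) : ℂ) * ((b ^ m₂ : Circle) : ℂ) *
      ((c ^ m₃ : Circle) : ℂ))‖ ≤ K * (S.card : ℝ) ^ 3 := by
  unfold T4
  have h1 : ∀ i ∈ S, ∀ l ∈ S, ‖∑ j ∈ S, ∑ k ∈ S, (if D4 i j k l then
      ((tt u i j k ^ m₁ : Circle) : ℂ) * ((tt u i k l ^ m₂ : Circle) : ℂ) *
        ((tt u i l j ^ m₃ : Circle) : ℂ) else 0)‖ ≤ K * S.card := by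
    intro i _ l _
    have h2 := h.bilS hK m₁ hm hm' S
      (fun j => if i ≠ j ∧ l ≠ j then ((u i j ^ m₁ * tt u i l j ^ m₃ : Circle) : ℂ) else 0)
      (fun k => if k ≠ i ∧ k ≠ l ∧ i ≠ l then ((u k i ^ m₁ * tt u i k l ^ m₂ : Circle) : ℂ) else 0)
      (fun j => ite_le _ _) (fun j => ite_le _ _)
    refine le_trans (le_of_eq ?_) h2
    congr 1
    refine Finset.sum_congr rfl fun j _ => Finset.sum_congr rfl fun k _ => ?_
    unfold V
    by_cases h5 : D4 i j k l
    · have h6 := h5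
      unfold D4 D3 at h6
      obtain ⟨⟨a1, a2, a3⟩, ⟨b1, b2, b3⟩, ⟨c1, c2, c3⟩⟩ := h6
      rw [if_pos h5, if_pos ⟨a1, c2⟩, if_neg a2, if_pos ⟨a3, b2, c1⟩]
      have e1 : tt u i j k ^ m₁ = u i j ^ m₁ * u j k ^ m₁ * u k i ^ m₁ := by
        unfold tt
        rw [mul_zpow, mul_zpow]
      rw [e1]
      push_cast
      ring
    · rw [if_neg h5]
      unfold D4 D3 at h5
      by_cases g1 : i ≠ j ∧ l ≠ j
      · by_cases g2 : k ≠ i ∧ k ≠ l ∧ i ≠ l
        · by_cases g3 : j = k
          · rw [if_pos g3]; ring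
          · exfalso
            exact h5 ⟨⟨g1.1, g3, g2.1⟩, ⟨g2.1.symm, g2.2.1, g2.2.2.symm⟩, ⟨g2.2.2, g1.2, g1.1.symm⟩⟩
        · rw [if_neg g2]; ring
      · rw [if_neg g1]; ring
  have e0 : ∀ i ∈ S, ∑ j ∈ S, ∑ k ∈ S, ∑ l ∈ S, (if D4 i j k l then
      ((tt u i j k ^ m₁ : Circle) : ℂ) * ((tt u i k l ^ m₂ : Circle) : ℂ) *
        ((tt u i l j ^ m₃ : Circle) : ℂ) else 0) = ∑ l ∈ S, ∑ j ∈ S, ∑ k ∈ S, (if D4 i j k l then
      ((tt u i j k ^ m₁ : Circle) : ℂ) * ((tt u i k l ^ m₂ : Circle) : ℂ) *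
        ((tt u i l j ^ m₃ : Circle) : ℂ) else 0) := by
    intro i _
    rw [Finset.sum_comm]
    have : ∀ j ∈ S, ∑ k ∈ S, ∑ l ∈ S, (if D4 i j k l then
      ((tt u i j k ^ m₁ : Circle) : ℂ) * ((tt u i k l ^ m₂ : Circle) : ℂ) *
        ((tt u i l j ^ m₃ : Circle) : ℂ) else 0) = ∑ l ∈ S, ∑ k ∈ S, (if D4 i j k l then
      ((tt u i j k ^ m₁ : Circle) : ℂ) * ((tt u i k l ^ m₂ : Circle) : ℂ) *
        ((tt u i l j ^ m₃ : Circle) : ℂ) else 0) := fun j _ => Finset.sum_comm
    rw [Finset.sum_comm, Finset.sum_congr rfl this, Finset.sum_comm]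
  rw [Finset.sum_congr rfl e0]
  calc _ ≤ ∑ i ∈ S, ∑ l ∈ S, ‖∑ j ∈ S, ∑ k ∈ S, (if D4 i j k l then
      ((tt u i j k ^ m₁ : Circle) : ℂ) * ((tt u i k l ^ m₂ : Circle) : ℂ) *
        ((tt u i l j ^ m₃ : Circle) : ℂ) else 0)‖ :=
        (norm_sum_le _ _).trans (Finset.sum_le_sum fun i _ => norm_sum_le _ _)
    _ ≤ ∑ _i ∈ S, ∑ _l ∈ S, K * S.card :=
        Finset.sum_le_sum fun i hi => Finset.sum_le_sum fun l hl => h1 i hi l hl
    _ = K * (S.card : ℝ) ^ 3 := by
        simp only [Finset.sum_const, nsmul_eq_mul]; ring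

/-- bound for quadruples -/
lemma Sys.bound4 (h : Sys u H K) (hK : 0 ≤ K) (m₁ m₂ m₃ : ℤ) (hm : ¬ (m₁ = 0 ∧ m₂ = 0 ∧ m₃ = 0))
    (h1 : |m₁| ≤ H) (h2 : |m₂| ≤ H) (h3 : |m₃| ≤ H) (S : Finset I) :
    ‖T4 u S (fun a b c => ((a ^ m₁ : Circle) : ℂ) * ((b ^ m₂ : Circle) : ℂ) *
      ((c ^ m₃ : Circle) : ℂ))‖ ≤ K * (S.card : ℝ) ^ 3 := by
  by_cases g1 : m₁ = 0
  · by_cases g2 : m₂ = 0
    · have g3 : m₃ ≠ 0 := fun g3 => hm ⟨g1, g2, g3⟩
      rw [T4_cyc]
      have := h.bound4' hK m₃ m₁ m₂ g3 h3 S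
      refine le_trans (le_of_eq ?_) this
      congr 2
      funext a b c
      ring
    · rw [T4_cyc, T4_cyc]
      have := h.bound4' hK m₂ m₃ m₁ g2 h2 S
      refine le_trans (le_of_eq ?_) this
      congr 2
      funext a b c
      ring
  · exact h.bound4' hK m₁ m₂ m₃ g1 h1 S

end estimates

section counting

omit [DecidableEq I] in
lemma sum3 {α : Type} [AddCommMonoid α] (S : Finset I) (G : I → I → I → α) :
    ∑ j ∈ S, ∑ k ∈ S, ∑ l ∈ S, G j k l = ∑ l ∈ S, ∑ j ∈ S, ∑ k ∈ S, G j k l := by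
  calc ∑ j ∈ S, ∑ k ∈ S, ∑ l ∈ S, G j k l
      = ∑ j ∈ S, ∑ l ∈ S, ∑ k ∈ S, G j k l := by
        refine Finset.sum_congr rfl fun j _ => ?_
        exact Finset.sum_comm
    _ = ∑ l ∈ S, ∑ j ∈ S, ∑ k ∈ S, G j k l := Finset.sum_comm

lemma count4 {S : Finset I} {j k l : I} (hj : j ∈ S) (hk : k ∈ S) (hl : l ∈ S) :
    ∑ i ∈ S, (if D4 i j k l then (1:ℝ) else 0) = if D3 j k l then ((S.card : ℝ) - 3) else 0 := by
  by_cases h : D3 j k l
  · rw [if_pos h]
    obtain ⟨h1, h2, h3⟩ := h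
    have h4 := sum_not_mem (S := S) (T := {j, k, l}) (by
        intro a ha
        simp only [Finset.mem_insert, Finset.mem_singleton] at ha
        rcases ha with h | h | h
        · exact h ▸ hj
        · exact h ▸ hk
        · exact h ▸ hl)
    have h5 : ({j, k, l} : Finset I).card = 3 := by
      rw [Finset.card_insert_of_notMem, Finset.card_pair h2]
      simp only [Finset.mem_insert, Finset.mem_singleton, not_or]
      exact ⟨h1, Ne.symm h3⟩
    rw [h5] at h4
    push_cast at h4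
    rw [← h4]
    refine Finset.sum_congr rfl fun i _ => ?_
    have e : D4 i j k l ↔ i ∉ ({j, k, l} : Finset I) := by
      unfold D4 D3
      simp only [Finset.mem_insert, Finset.mem_singleton, not_or]
      constructor
      · rintro ⟨⟨a1, a2, a3⟩, ⟨b1, b2, b3⟩, ⟨c1, c2, c3⟩⟩
        exact ⟨a1, b1, c1⟩
      · rintro ⟨a, b, c⟩
        exact ⟨⟨a, h1, Ne.symm b⟩, ⟨b, h2, Ne.symm c⟩, ⟨c, h3, Ne.symm a⟩⟩
    simp only [e]
  · rw [if_neg h]
    refine Finset.sum_eq_zero fun i _ => ?_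
    rw [if_neg]
    rintro ⟨a, b, c⟩
    exact h ⟨a.2.1, b.2.1, c.2.1⟩

/-- functions of the fourth triple product -/
lemma T4_prod {u : I → I → Circle} (hu : ∀ j k, u k j = (u j k)⁻¹) (S : Finset I) (F : Circle → ℂ) :
    T4 u S (fun a b c => F (a * b * c)) = (((S.card : ℝ) - 3 : ℝ) : ℂ) * T3 u S F := by
  unfold T4 T3
  have h1 : ∑ i ∈ S, ∑ j ∈ S, ∑ k ∈ S, ∑ l ∈ S,
      (if D4 i j k l then F (tt u i j k * tt u i k l * tt u i l j) else 0) =
      ∑ j ∈ S, ∑ k ∈ S, ∑ l ∈ S, ∑ i ∈ S, (if D4 i j k l then F (tt u j k l) else 0) := by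
    have h2 : ∑ i ∈ S, ∑ j ∈ S, ∑ k ∈ S, ∑ l ∈ S,
      (if D4 i j k l then F (tt u i j k * tt u i k l * tt u i l j) else 0) =
      ∑ i ∈ S, ∑ j ∈ S, ∑ k ∈ S, ∑ l ∈ S, (if D4 i j k l then F (tt u j k l) else 0) := by
      refine Finset.sum_congr rfl fun i _ => Finset.sum_congr rfl fun j _ =>
        Finset.sum_congr rfl fun k _ => Finset.sum_congr rfl fun l _ => ?_
      rw [tt_cocycle hu]
    rw [h2, Finset.sum_comm]
    refine Finset.sum_congr rfl fun j _ => ?_
    rw [Finset.sum_comm]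
    refine Finset.sum_congr rfl fun k _ => ?_
    rw [Finset.sum_comm]
  rw [h1, Finset.mul_sum]
  refine Finset.sum_congr rfl fun j hj => ?_
  rw [Finset.mul_sum]
  refine Finset.sum_congr rfl fun k hk => ?_
  rw [Finset.mul_sum]
  refine Finset.sum_congr rfl fun l hl => ?_
  have h3 := count4 hj hk hl
  have h4 : ∑ i ∈ S, (if D4 i j k l then F (tt u j k l) else 0) =
      ((∑ i ∈ S, (if D4 i j k l then (1:ℝ) else 0) : ℝ) : ℂ) * F (tt u j k l) := by
    push_cast
    rw [Finset.sum_mul]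
    refine Finset.sum_congr rfl fun i _ => ?_
    split_ifs <;> simp
  rw [h4, h3]
  split_ifs <;> simp

/-- functions of the first triple product -/
lemma T4_first (u : I → I → Circle) (S : Finset I) (g : Circle → ℝ) (hg : ∀ z, 0 ≤ g z) :
    T4 u S (fun a _ _ => g a) ≤ (S.card : ℝ) * T3 u S g := by
  unfold T4 T3
  rw [Finset.mul_sum]
  refine Finset.sum_le_sum fun i _ => ?_
  rw [Finset.mul_sum]
  refine Finset.sum_le_sum fun j _ => ?_
  rw [Finset.mul_sum]
  refine Finset.sum_le_sum fun k _ => ?_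
  calc ∑ l ∈ S, (if D4 i j k l then g (tt u i j k) else 0)
      ≤ ∑ _l ∈ S, (if D3 i j k then g (tt u i j k) else 0) := by
        refine Finset.sum_le_sum fun l _ => ?_
        by_cases h : D4 i j k l
        · rw [if_pos h, if_pos h.1]
        · rw [if_neg h]
          split_ifs
          · exact hg _
          · exact le_rfl
    _ = _ := by rw [Finset.sum_const, nsmul_eq_mul]

lemma T3_mono (u : I → I → Circle) (S : Finset I) {f g : Circle → ℝ} (h : ∀ z, f z ≤ g z) :
    T3 u S f ≤ T3 u S g := by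
  unfold T3
  refine Finset.sum_le_sum fun i _ => Finset.sum_le_sum fun j _ => Finset.sum_le_sum fun k _ => ?_
  split_ifs
  · exact h _
  · exact le_rfl

lemma T4_mono (u : I → I → Circle) (S : Finset I) {f g : Circle → Circle → Circle → ℝ}
    (h : ∀ a b c, f a b c ≤ g a b c) : T4 u S f ≤ T4 u S g := by
  unfold T4
  refine Finset.sum_le_sum fun i _ => Finset.sum_le_sum fun j _ => Finset.sum_le_sum fun k _ =>
    Finset.sum_le_sum fun l _ => ?_
  split_ifs
  · exact h _ _ _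
  · exact le_rfl

lemma T3_norm (u : I → I → Circle) (S : Finset I) (f : Circle → ℂ) :
    ‖T3 u S f‖ ≤ T3 u S (fun z => ‖f z‖) := by
  unfold T3
  refine (norm_sum_le _ _).trans (Finset.sum_le_sum fun i _ => (norm_sum_le _ _).trans
    (Finset.sum_le_sum fun j _ => (norm_sum_le _ _).trans (Finset.sum_le_sum fun k _ => ?_)))
  split_ifs
  · exact le_rfl
  · simp

lemma T4_norm (u : I → I → Circle) (S : Finset I) (f : Circle → Circle → Circle → ℂ) :
    ‖T4 u S f‖ ≤ T4 u S (fun a b c => ‖f a b c‖) := by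
  unfold T4
  refine (norm_sum_le _ _).trans (Finset.sum_le_sum fun i _ => (norm_sum_le _ _).trans
    (Finset.sum_le_sum fun j _ => (norm_sum_le _ _).trans (Finset.sum_le_sum fun k _ =>
      (norm_sum_le _ _).trans (Finset.sum_le_sum fun l _ => ?_))))
  split_ifs
  · exact le_rfl
  · simp

lemma T3_add {α : Type} [AddCommMonoid α] (u : I → I → Circle) (S : Finset I) (f g : Circle → α) :
    T3 u S (fun z => f z + g z) = T3 u S f + T3 u S g := by
  unfold T3
  simp only [← Finset.sum_add_distrib]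
  refine Finset.sum_congr rfl fun i _ => Finset.sum_congr rfl fun j _ =>
    Finset.sum_congr rfl fun k _ => ?_
  split_ifs
  · rfl
  · simp

lemma T3_sub (u : I → I → Circle) (S : Finset I) (f g : Circle → ℂ) :
    T3 u S (fun z => f z - g z) = T3 u S f - T3 u S g := by
  unfold T3
  simp only [← Finset.sum_sub_distrib]
  refine Finset.sum_congr rfl fun i _ => Finset.sum_congr rfl fun j _ =>
    Finset.sum_congr rfl fun k _ => ?_
  split_ifs
  · rfl
  · simp

lemma T4_sub (u : I → I → Circle) (S : Finset I) (f g : Circle → Circle → Circle → ℂ) :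
    T4 u S (fun a b c => f a b c - g a b c) = T4 u S f - T4 u S g := by
  unfold T4
  simp only [← Finset.sum_sub_distrib]
  refine Finset.sum_congr rfl fun i _ => Finset.sum_congr rfl fun j _ =>
    Finset.sum_congr rfl fun k _ => Finset.sum_congr rfl fun l _ => ?_
  split_ifs
  · rfl
  · simp

lemma T4_add (u : I → I → Circle) (S : Finset I) (f g : Circle → Circle → Circle → ℝ) :
    T4 u S (fun a b c => f a b c + g a b c) = T4 u S f + T4 u S g := by
  unfold T4
  simp only [← Finset.sum_add_distrib]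
  refine Finset.sum_congr rfl fun i _ => Finset.sum_congr rfl fun j _ =>
    Finset.sum_congr rfl fun k _ => Finset.sum_congr rfl fun l _ => ?_
  split_ifs
  · rfl
  · simp

lemma T3_mul {α : Type} [Semiring α] (u : I → I → Circle) (S : Finset I) (c : α)
    (f : Circle → α) : T3 u S (fun z => c * f z) = c * T3 u S f := by
  unfold T3
  simp only [Finset.mul_sum]
  refine Finset.sum_congr rfl fun i _ => Finset.sum_congr rfl fun j _ =>
    Finset.sum_congr rfl fun k _ => ?_
  split_ifs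
  · rfl
  · simp

lemma T4_mul {α : Type} [Semiring α] (u : I → I → Circle) (S : Finset I) (c : α)
    (f : Circle → Circle → Circle → α) :
    T4 u S (fun x y z => c * f x y z) = c * T4 u S f := by
  unfold T4
  simp only [Finset.mul_sum]
  refine Finset.sum_congr rfl fun i _ => Finset.sum_congr rfl fun j _ =>
    Finset.sum_congr rfl fun k _ => Finset.sum_congr rfl fun l _ => ?_
  split_ifs
  · rfl
  · simp

lemma T3_sum {ι α : Type} [AddCommMonoid α] (u : I → I → Circle) (S : Finset I) (A : Finset ι)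
    (f : ι → Circle → α) : T3 u S (fun z => ∑ a ∈ A, f a z) = ∑ a ∈ A, T3 u S (f a) := by
  classical
  induction A using Finset.induction_on with
  | empty => simp [T3]
  | insert a A ha ih =>
    rw [Finset.sum_insert ha, ← ih, ← T3_add]
    congr 1
    funext z
    rw [Finset.sum_insert ha]

lemma T4_addC (u : I → I → Circle) (S : Finset I) (f g : Circle → Circle → Circle → ℂ) :
    T4 u S (fun a b c => f a b c + g a b c) = T4 u S f + T4 u S g := by
  unfold T4
  simp only [← Finset.sum_add_distrib]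
  refine Finset.sum_congr rfl fun i _ => Finset.sum_congr rfl fun j _ =>
    Finset.sum_congr rfl fun k _ => Finset.sum_congr rfl fun l _ => ?_
  split_ifs
  · rfl
  · simp

lemma T4_sum {ι : Type} (u : I → I → Circle) (S : Finset I) (A : Finset ι)
    (f : ι → Circle → Circle → Circle → ℂ) :
    T4 u S (fun x y z => ∑ a ∈ A, f a x y z) = ∑ a ∈ A, T4 u S (f a) := by
  classical
  induction A using Finset.induction_on with
  | empty => simp [T4]
  | insert a A ha ih =>
    rw [Finset.sum_insert ha, ← ih, ← T4_addC]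
    congr 1
    funext x y z
    rw [Finset.sum_insert ha]

end counting

end Pool.Agent.Q188.TP
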